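import Pool.Agent.N677.NW.Boot3

set_option autoImplicit false

/-! MP_70f7a7_an, three bodies: the outer relative acceleration. -/

namespace Pool.Agent.N677.NW

open MeasureTheory Set Pool.Agent.Y516.NW

theorem sum3 {G : Type*} [AddCommMonoid G] {a b c : Fin 3} (hab : a ≠ b) (hac : a ≠ c)
    (hbc : b ≠ c) (f : Fin 3 → G) : ∑ j, f j = f a + f b + f c := by
  have h1 : (Finset.univ : Finset (Fin 3)) = {a, b, c} := by
    symm
    rw [Finset.eq_univ_iff_forall]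
    intro x
    simp only [Finset.mem_insert, Finset.mem_singleton]
    omega
  rw [h1, Finset.sum_insert (by simp [hab, hac]), Finset.sum_insert (by simp [hbc]),
    Finset.sum_singleton, add_assoc]

/-- attraction -/
noncomputable def Fv (y : E3) : E3 := (1 / ‖y‖ ^ 3) • y

theorem relacc (m : Fin 3 → ℝ) (hm : ∀ i, 0 < m i) {a b c : Fin 3} (hab : a ≠ b) (hac : a ≠ c)
    (hbc : b ≠ c) (q : Cfg 3) :
    cm m a b (acc m q) a - cm m a b (acc m q) c =
      ((m a + m b + m c) / (m a + m b)) • (m a • Fv (q c - q a) + m b • Fv (q c - q b)) := by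
  have hs : m a + m b ≠ 0 := (add_pos (hm a) (hm b)).ne'
  have e1 : acc m q a = m b • Fv (q b - q a) + m c • Fv (q c - q a) := by
    unfold acc Fv
    rw [sum3 hab hac hbc]
    simp only [sub_self, smul_zero, zero_add, smul_smul]
    congr 2 <;> ring
  have e2 : acc m q b = m a • Fv (q a - q b) + m c • Fv (q c - q b) := by
    unfold acc Fv
    rw [sum3 hab hac hbc]
    simp only [sub_self, smul_zero, add_zero, smul_smul]
    congr 2 <;> ring
  have e3 : acc m q c = m a • Fv (q a - q c) + m b • Fv (q b - q c) := by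
    unfold acc Fv
    rw [sum3 hab hac hbc]
    simp only [sub_self, smul_zero, add_zero, smul_smul]
    congr 2 <;> ring
  have hF : ∀ x y : E3, Fv (x - y) = - Fv (y - x) := by
    intro x y
    unfold Fv
    rw [norm_sub_rev, ← smul_neg, neg_sub]
  have ca : cm m a b (acc m q) a = (m a + m b)⁻¹ • (m a • acc m q a + m b • acc m q b) := by
    unfold cm; simp
  have cc : cm m a b (acc m q) c = acc m q c := by
    unfold cm; simp [hac.symm, hbc.symm]
  rw [ca, cc, e1, e2, e3, hF (q a) (q c), hF (q b) (q c), hF (q a) (q b)]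
  obtain ⟨A, hA⟩ : ∃ A, A = Fv (q c - q a) := ⟨_, rfl⟩
  obtain ⟨B, hB⟩ : ∃ B, B = Fv (q c - q b) := ⟨_, rfl⟩
  obtain ⟨D, hD⟩ : ∃ D, D = Fv (q b - q a) := ⟨_, rfl⟩
  rw [← hA, ← hB, ← hD]
  have h1 : (m a + m b)⁻¹ • (m a • (m b • D + m c • A) + m b • (m a • -D + m c • B)) =
      ((m a + m b)⁻¹ * m c) • (m a • A + m b • B) := by
    simp only [smul_add, smul_neg, smul_smul]
    have : (m a + m b)⁻¹ * (m b * m a) = (m a + m b)⁻¹ * (m a * m b) := by ring
    rw [this]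
    have e : (m a + m b)⁻¹ * m c * m a = (m a + m b)⁻¹ * (m a * m c) := by ring
    have e' : (m a + m b)⁻¹ * m c * m b = (m a + m b)⁻¹ * (m b * m c) := by ring
    rw [e, e']
    abel
  rw [h1]
  have h2 : (m a + m b + m c) / (m a + m b) = (m a + m b)⁻¹ * m c + 1 := by
    field_simp
    ring
  rw [h2, add_smul, one_smul]
  simp only [smul_neg]
  abel

theorem near' (m : Fin 3 → ℝ) (hm : ∀ i, 0 < m i) {a b c : Fin 3} (hab : a ≠ b) (hac : a ≠ c)
    (hbc : b ≠ c) (q : Cfg 3) (hn : ∀ i, ‖q i - cm m a b q i‖ ≤ ‖q a - q b‖)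
    (h : 4 * ‖q a - q b‖ ≤ ‖cm m a b q a - cm m a b q c‖)
    (hX : 0 < ‖cm m a b q a - cm m a b q c‖) :
    ‖cm m a b (acc m q) a - cm m a b (acc m q) c‖ * ‖cm m a b q a - cm m a b q c‖ ^ 2
        ≤ 4 * (m a + m b + m c) ∧
    (∀ e f, ON e f → |om e f (cm m a b q a - cm m a b q c)
        (cm m a b (acc m q) a - cm m a b (acc m q) c)| * ‖cm m a b q a - cm m a b q c‖ ^ 2
        ≤ 8 * (m a + m b + m c) * ‖q a - q b‖) := by
  have hs : 0 < m a + m b := add_pos (hm a) (hm b)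
  have hma := hm a
  have hmb := hm b
  have hmc := hm c
  obtain ⟨X, hXe⟩ : ∃ X, X = cm m a b q a - cm m a b q c := ⟨_, rfl⟩
  obtain ⟨r, hr⟩ : ∃ r, r = ‖q a - q b‖ := ⟨_, rfl⟩
  have hr0 : 0 ≤ r := by rw [hr]; exact norm_nonneg _
  rw [relacc m hm hab hac hbc, ← hXe, ← hr]
  rw [← hXe, ← hr] at h
  rw [← hXe] at hX
  have cc : cm m a b q c = q c := by unfold cm; simp [hac.symm, hbc.symm]
  have cb : cm m a b q b = cm m a b q a := by unfold cm; simp
  have na : ‖X + (q c - q a)‖ ≤ r := by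
    have : X + (q c - q a) = -(q a - cm m a b q a) := by rw [hXe, cc]; abel
    rw [this, norm_neg, hr]; exact hn a
  have nb : ‖X + (q c - q b)‖ ≤ r := by
    have : X + (q c - q b) = -(q b - cm m a b q b) := by rw [hXe, cc, cb]; abel
    rw [this, norm_neg, hr]; exact hn b
  have key : ∀ Y : E3, ‖X + Y‖ ≤ r → ‖Fv Y‖ * ‖X‖ ^ 2 ≤ 4 ∧
      ∀ e f, ON e f → |om e f X (Fv Y)| * ‖X‖ ^ 2 ≤ 8 * r := by
    intro Y hY
    have h1 : ‖X‖ / 2 ≤ ‖Y‖ := by
      have : ‖X‖ ≤ ‖X + Y‖ + ‖Y‖ := by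
        have : X = (X + Y) - Y := by abel
        calc ‖X‖ = ‖(X + Y) - Y‖ := by rw [← this]
          _ ≤ _ := norm_sub_le _ _
      linarith
    have hYp : 0 < ‖Y‖ := lt_of_lt_of_le (by positivity) h1
    constructor
    · unfold Fv
      rw [norm_smul, norm_div, norm_one, norm_pow, norm_norm]
      have : 1 / ‖Y‖ ^ 3 * ‖Y‖ * ‖X‖ ^ 2 = ‖X‖ ^ 2 / ‖Y‖ ^ 2 := by field_simp
      rw [this, div_le_iff₀ (by positivity)]
      have : (‖X‖ / 2) ^ 2 ≤ ‖Y‖ ^ 2 := by gcongr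
      nlinarith
    · intro e f hef
      have e1 : om e f X Y = om e f X (X + Y) := by rw [om_add_right, om_self, zero_add]
      unfold Fv
      rw [om_smul_right, e1, abs_mul, abs_of_pos (by positivity)]
      have e2 := om_le hef X (X + Y)
      have e3 : |om e f X (X + Y)| ≤ ‖X‖ * r := e2.trans (by gcongr)
      have e4 : 1 / ‖Y‖ ^ 3 * |om e f X (X + Y)| * ‖X‖ ^ 2 ≤
          1 / ‖Y‖ ^ 3 * (‖X‖ * r) * ‖X‖ ^ 2 := by gcongr
      refine e4.trans ?_
      have : 1 / ‖Y‖ ^ 3 * (‖X‖ * r) * ‖X‖ ^ 2 = ‖X‖ ^ 3 / ‖Y‖ ^ 3 * r := by ring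
      rw [this]
      gcongr
      rw [div_le_iff₀ (by positivity)]
      have : (‖X‖ / 2) ^ 3 ≤ ‖Y‖ ^ 3 := by gcongr
      have e5 : (‖X‖ / 2) ^ 3 = ‖X‖ ^ 3 / 8 := by ring
      linarith
  obtain ⟨ka1, ka2⟩ := key _ na
  obtain ⟨kb1, kb2⟩ := key _ nb
  obtain ⟨κ, hκ⟩ : ∃ κ, κ = (m a + m b + m c) / (m a + m b) := ⟨_, rfl⟩
  have hκ0 : 0 ≤ κ := by rw [hκ]; positivity
  have hκm : κ * (m a + m b) = m a + m b + m c := by rw [hκ]; field_simp
  rw [← hκ]
  constructor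
  · rw [norm_smul, Real.norm_of_nonneg hκ0]
    have h1 : ‖m a • Fv (q c - q a) + m b • Fv (q c - q b)‖ ≤
        m a * ‖Fv (q c - q a)‖ + m b * ‖Fv (q c - q b)‖ := by
      refine (norm_add_le _ _).trans (le_of_eq ?_)
      rw [norm_smul, norm_smul, Real.norm_of_nonneg hma.le, Real.norm_of_nonneg hmb.le]
    calc κ * ‖m a • Fv (q c - q a) + m b • Fv (q c - q b)‖ * ‖X‖ ^ 2
        ≤ κ * (m a * ‖Fv (q c - q a)‖ + m b * ‖Fv (q c - q b)‖) * ‖X‖ ^ 2 := by gcongr
      _ = κ * (m a * (‖Fv (q c - q a)‖ * ‖X‖ ^ 2) + m b * (‖Fv (q c - q b)‖ * ‖X‖ ^ 2)) := by ring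
      _ ≤ κ * (m a * 4 + m b * 4) := by gcongr
      _ = 4 * (κ * (m a + m b)) := by ring
      _ = _ := by rw [hκm]
  · intro e f hef
    rw [om_smul_right, om_add_right, om_smul_right, om_smul_right, abs_mul, abs_of_nonneg hκ0]
    have h1 : |m a * om e f X (Fv (q c - q a)) + m b * om e f X (Fv (q c - q b))| ≤
        m a * |om e f X (Fv (q c - q a))| + m b * |om e f X (Fv (q c - q b))| := by
      refine (abs_add_le _ _).trans (le_of_eq ?_)
      rw [abs_mul, abs_mul, abs_of_pos hma, abs_of_pos hmb]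
    calc κ * |m a * om e f X (Fv (q c - q a)) + m b * om e f X (Fv (q c - q b))| * ‖X‖ ^ 2
        ≤ κ * (m a * |om e f X (Fv (q c - q a))| + m b * |om e f X (Fv (q c - q b))|) * ‖X‖ ^ 2 := by
          gcongr
      _ = κ * (m a * (|om e f X (Fv (q c - q a))| * ‖X‖ ^ 2)
          + m b * (|om e f X (Fv (q c - q b))| * ‖X‖ ^ 2)) := by ring
      _ ≤ κ * (m a * (8 * r) + m b * (8 * r)) := by
          have := ka2 e f hef
          have := kb2 e f hef
          gcongr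
      _ = 8 * (κ * (m a + m b)) * r := by ring
      _ = _ := by rw [hκm]

end Pool.Agent.N677.NW
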