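import Pool.Agent.Y516.NW.Stm

set_option autoImplicit false

/-! MP_70f7a7_an, three bodies: along a motion of the third body with large
`|X × V| |V|` the outer relative velocity stays almost constant (bootstrap argument with the
angular momentum and the function `arctan` of `X · V`). -/

namespace Pool.Agent.N677.NW

open MeasureTheory Set Pool.Agent.Y516.NW

/-- area form of the plane of `e`, `f` -/
noncomputable def om (e f X V : E3) : ℝ := inner ℝ e X * inner ℝ f V - inner ℝ f X * inner ℝ e V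

/-- orthonormal pair -/
structure ON (e f : E3) : Prop where
  e1 : ‖e‖ = 1
  f1 : ‖f‖ = 1
  ef : inner ℝ e f = 0

theorem bessel {e f : E3} (h : ON e f) (X : E3) :
    (inner ℝ e X) ^ 2 + (inner ℝ f X) ^ 2 ≤ ‖X‖ ^ 2 := by
  have h1 : 0 ≤ ‖X - (inner ℝ e X) • e - (inner ℝ f X) • f‖ ^ 2 := sq_nonneg _
  have h2 : inner ℝ f e = 0 := by rw [real_inner_comm]; exact h.ef
  have h3 : inner ℝ e e = 1 := by rw [real_inner_self_eq_norm_sq, h.e1]; norm_num
  have h4 : inner ℝ f f = 1 := by rw [real_inner_self_eq_norm_sq, h.f1]; norm_num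
  have h5 : inner ℝ X e = inner ℝ e X := real_inner_comm _ _
  have h6 : inner ℝ X f = inner ℝ f X := real_inner_comm _ _
  have h7 : inner ℝ X X = ‖X‖ ^ 2 := real_inner_self_eq_norm_sq X
  rw [← real_inner_self_eq_norm_sq] at h1
  simp only [inner_sub_left, inner_sub_right, real_inner_smul_left, real_inner_smul_right, h.ef,
    h2, h3, h4, h5, h6, h7] at h1
  nlinarith

theorem om_le {e f : E3} (h : ON e f) (X V : E3) : |om e f X V| ≤ ‖X‖ * ‖V‖ := by
  have h1 := bessel h X
  have h2 := bessel h V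
  refine abs_le_of_sq_le_sq ?_ (by positivity)
  have h3 : (om e f X V) ^ 2 ≤ ((inner ℝ e X) ^ 2 + (inner ℝ f X) ^ 2) *
      ((inner ℝ e V) ^ 2 + (inner ℝ f V) ^ 2) := by
    unfold om
    nlinarith [sq_nonneg (inner ℝ e X * inner ℝ e V + inner ℝ f X * inner ℝ f V)]
  have h4 : ((inner ℝ e X) ^ 2 + (inner ℝ f X) ^ 2) *
      ((inner ℝ e V) ^ 2 + (inner ℝ f V) ^ 2) ≤ ‖X‖ ^ 2 * ‖V‖ ^ 2 :=
    mul_le_mul h1 h2 (by positivity) (by positivity)
  rw [mul_pow]
  exact h3.trans h4

theorem om_self (e f X : E3) : om e f X X = 0 := by unfold om; ring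

theorem om_add_right (e f X V W : E3) : om e f X (V + W) = om e f X V + om e f X W := by
  unfold om; rw [inner_add_right, inner_add_right]; ring

theorem om_smul_right (e f X V : E3) (s : ℝ) : om e f X (s • V) = s * om e f X V := by
  unfold om; rw [inner_smul_right, inner_smul_right]; ring

theorem om_smul_left (e f X V : E3) (s : ℝ) : om e f (s • X) V = s * om e f X V := by
  unfold om; rw [inner_smul_right, inner_smul_right]; ring

theorem exists_ON (X V : E3) (h : 0 < gr X V) :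
    ∃ e f : E3, ON e f ∧ om e f X V = Real.sqrt (gr X V) := by
  have hX : 0 < ‖X‖ := by
    refine norm_pos_iff.mpr fun h0 => ?_
    rw [h0] at h; simp [gr] at h
  set e : E3 := ‖X‖⁻¹ • X with he
  have he1 : ‖e‖ = 1 := by
    rw [he, norm_smul, norm_inv, norm_norm, inv_mul_cancel₀ hX.ne']
  have hee : inner ℝ e e = 1 := by rw [real_inner_self_eq_norm_sq, he1]; norm_num
  set W : E3 := V - (inner ℝ e V) • e with hW
  have heW : inner ℝ e W = 0 := by
    rw [hW, inner_sub_right, real_inner_smul_right, hee]; ring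
  have heV : inner ℝ e V = ‖X‖⁻¹ * inner ℝ X V := by rw [he, real_inner_smul_left]
  have hWW : ‖W‖ ^ 2 = ‖V‖ ^ 2 - (inner ℝ e V) ^ 2 := by
    rw [← real_inner_self_eq_norm_sq, hW]
    simp only [inner_sub_left, inner_sub_right, real_inner_smul_left, real_inner_smul_right, hee,
      real_inner_self_eq_norm_sq V, real_inner_comm e V]
    ring
  have hgr : gr X V = ‖X‖ ^ 2 * ‖W‖ ^ 2 := by
    rw [hWW, heV]; unfold gr; field_simp
  have hWpos : 0 < ‖W‖ := by
    by_contra hcon
    have h0 : ‖W‖ = 0 := le_antisymm (not_lt.mp hcon) (norm_nonneg _)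
    rw [hgr, h0] at h; simp at h
  refine ⟨e, ‖W‖⁻¹ • W, ⟨he1, ?_, ?_⟩, ?_⟩
  · rw [norm_smul, norm_inv, norm_norm, inv_mul_cancel₀ hWpos.ne']
  · rw [real_inner_smul_right, heW, mul_zero]
  · have h1 : inner ℝ e X = ‖X‖ := by
      rw [he, real_inner_smul_left, real_inner_self_eq_norm_sq]; field_simp
    have h2 : inner ℝ W X = 0 := by
      have : X = ‖X‖ • e := by rw [he, smul_smul, mul_inv_cancel₀ hX.ne', one_smul]
      rw [this, real_inner_smul_right, real_inner_comm, heW, mul_zero]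
    have h3 : inner ℝ W V = ‖W‖ ^ 2 := by
      have : V = W + (inner ℝ e V) • e := by rw [hW]; abel
      nth_rewrite 1 [this]
      rw [inner_add_right, real_inner_self_eq_norm_sq, real_inner_smul_right,
        real_inner_comm e W, heW]; ring
    unfold om
    rw [h1, real_inner_smul_left, real_inner_smul_left, h2, h3, hgr, ← mul_pow,
      Real.sqrt_sq (by positivity)]
    field_simp
    ring

theorem boot3 (hBoot : BootStm) (M μ : ℝ) (hM : 0 < M) (hμ : 0 < μ) (X V A : ℝ → E3)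
    (r c : ℝ → ℝ) (hc : ∀ t, 0 < c t)
    (hX : ∀ t, HasDerivAt X (c t • V t) t) (hV : ∀ t, HasDerivAt V (c t • A t) t)
    (hr : Continuous r) (hr0 : ∀ t, 0 ≤ r t)
    (hA : ∀ t, 4 * r t ≤ ‖X t‖ → 0 < ‖X t‖ → ‖A t‖ * ‖X t‖ ^ 2 ≤ 4 * M)
    (hom : ∀ t, 4 * r t ≤ ‖X t‖ → 0 < ‖X t‖ → ∀ e f, ON e f →
      |om e f (X t) (A t)| * ‖X t‖ ^ 2 ≤ 8 * M * r t)
    (hE : ∀ t, 4 * r t ≤ ‖X t‖ → ∀ d u : ℝ, 0 < d → d ≤ ‖X t‖ → 0 ≤ u → u ≤ ‖V t‖ →
      r t * (μ * u ^ 2 / 4 - 2 * M ^ 2 / d) ≤ M ^ 2)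
    (h0 : 4 * r 0 ≤ ‖X 0‖)
    (hK : (1024 * (M + M ^ 2 / μ)) ^ 2 ≤ gr (X 0) (V 0) * ‖V 0‖ ^ 2) :
    ∀ t, 0 ≤ t → ‖V t - V 0‖ ≤ ‖V 0‖ / 4 := by
  obtain ⟨B, hB⟩ : ∃ B : ℝ, B = M ^ 2 / μ := ⟨_, rfl⟩
  have hBpos : 0 < B := by rw [hB]; positivity
  have hBμ : B * μ = M ^ 2 := by rw [hB]; field_simp
  rw [← hB] at hK
  obtain ⟨v, hv⟩ : ∃ v : ℝ, v = ‖V 0‖ := ⟨_, rfl⟩
  have hKpos : 0 < (1024 * (M + B)) ^ 2 := by positivity
  have hgv : 0 < gr (X 0) (V 0) * ‖V 0‖ ^ 2 := lt_of_lt_of_le hKpos hK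
  have hvpos : 0 < v := by
    rw [hv]
    refine norm_pos_iff.mpr fun h => ?_
    rw [h] at hgv; simp at hgv
  have hgpos : 0 < gr (X 0) (V 0) := by
    by_contra hcon
    have : gr (X 0) (V 0) * ‖V 0‖ ^ 2 ≤ 0 := mul_nonpos_of_nonpos_of_nonneg (not_lt.mp hcon)
      (by positivity)
    linarith
  obtain ⟨e, f, hef, homef⟩ := exists_ON _ _ hgpos
  obtain ⟨f0, hf0⟩ : ∃ f0 : ℝ, f0 = Real.sqrt (gr (X 0) (V 0)) := ⟨_, rfl⟩
  rw [← hf0] at homef
  have hf0pos : 0 < f0 := by rw [hf0]; exact Real.sqrt_pos.mpr hgpos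
  have hf0v : 1024 * (M + B) ≤ f0 * v := by
    have h1 : (1024 * (M + B)) ^ 2 ≤ (f0 * v) ^ 2 := by
      rw [mul_pow f0 v, hf0, Real.sq_sqrt hgpos.le, hv]; exact hK
    exact le_of_sq_le_sq h1 (by positivity) |> fun h => h
  obtain ⟨d, hd⟩ : ∃ d : ℝ, d = f0 / (2 * v) := ⟨_, rfl⟩
  have hdpos : 0 < d := by rw [hd]; positivity
  have hdv : d * v = f0 / 2 := by rw [hd]; field_simp
  have hdv2 : 512 * (M + B) ≤ d * v ^ 2 := by
    have : d * v ^ 2 = f0 * v / 2 := by rw [pow_two, ← mul_assoc, hdv]; ring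
    rw [this]; linarith
  have hX0 : 2 * d ≤ ‖X 0‖ := by
    have h1 := (le_abs_self _).trans (om_le hef (X 0) (V 0))
    rw [homef, ← hv] at h1
    have h2 : 2 * d * v ≤ ‖X 0‖ * v := by linarith
    exact le_of_mul_le_mul_right h2 hvpos
  -- the tight pair
  obtain ⟨rm, hrm⟩ : ∃ rm : ℝ, rm = 8 * B / v ^ 2 := ⟨_, rfl⟩
  have hrmpos : 0 < rm := by rw [hrm]; positivity
  have hrmv : rm * v ^ 2 = 8 * B := by rw [hrm]; field_simp
  have hrmd : 32 * rm < d := by
    have h1 : 32 * rm * v ^ 2 < d * v ^ 2 := by nlinarith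
    exact lt_of_mul_lt_mul_right h1 (by positivity)
  have hrt : ∀ t, 4 * r t ≤ ‖X t‖ → d ≤ ‖X t‖ → 3 / 4 * v ≤ ‖V t‖ → r t ≤ rm := by
    intro t h1 h2 h3
    have h4 := hE t h1 d (3 / 4 * v) hdpos h2 (by positivity) h3
    have h5 : 2 * M ^ 2 / d ≤ μ * v ^ 2 / 64 := by
      rw [div_le_div_iff₀ hdpos (by norm_num), ← hBμ]
      nlinarith [mul_pos hμ hBpos, mul_pos hμ hM]
    have h6 : μ * v ^ 2 / 8 ≤ μ * (3 / 4 * v) ^ 2 / 4 - 2 * M ^ 2 / d := by nlinarith
    have h7 : r t * (μ * v ^ 2 / 8) ≤ M ^ 2 :=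
      (mul_le_mul_of_nonneg_left h6 (hr0 t)).trans h4
    have h8 : r t * (μ * v ^ 2 / 8) ≤ rm * (μ * v ^ 2 / 8) := by
      have : rm * (μ * v ^ 2 / 8) = M ^ 2 := by
        rw [← hBμ]; linear_combination (μ / 8) * hrmv
      rw [this]; exact h7
    exact le_of_mul_le_mul_right h8 (by positivity)
  -- the bootstrap step
  have hstep : ∀ T, 0 ≤ T → (∀ t, 0 ≤ t → t ≤ T → ‖V t - V 0‖ ≤ v / 4 ∧ d ≤ ‖X t‖ ∧
      4 * r t ≤ d) → ‖V T - V 0‖ < v / 4 ∧ d < ‖X T‖ ∧ 4 * r T < d := by
    intro T hT hall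
    have hVl : ∀ t, 0 ≤ t → t ≤ T → 3 / 4 * v ≤ ‖V t‖ ∧ ‖V t‖ ≤ 5 / 4 * v := by
      intro t h1 h2
      have h3 := (hall t h1 h2).1
      have h4 : ‖V 0‖ ≤ ‖V t - V 0‖ + ‖V t‖ := by
        have : V 0 = -(V t - V 0) + V t := by abel
        calc ‖V 0‖ = ‖-(V t - V 0) + V t‖ := by rw [← this]
          _ ≤ ‖-(V t - V 0)‖ + ‖V t‖ := norm_add_le _ _
          _ = _ := by rw [norm_neg]
      have h5 : ‖V t‖ ≤ ‖V t - V 0‖ + ‖V 0‖ := by
        have : V t = (V t - V 0) + V 0 := by abel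
        calc ‖V t‖ = ‖(V t - V 0) + V 0‖ := by rw [← this]
          _ ≤ _ := norm_add_le _ _
      rw [← hv] at h4 h5
      constructor <;> linarith
    have hrr : ∀ t, 0 ≤ t → t ≤ T → r t ≤ rm := fun t h1 h2 =>
      hrt t (by have := hall t h1 h2; linarith [this.2.1, this.2.2]) (hall t h1 h2).2.1
        (hVl t h1 h2).1
    obtain ⟨β, hβ⟩ : ∃ β : ℝ, β = 5 / 4 * v * d := ⟨_, rfl⟩
    have hβpos : 0 < β := by rw [hβ]; positivity
    -- y = X · V
    obtain ⟨y, hy⟩ : ∃ y : ℝ → ℝ, y = fun t => inner ℝ (X t) (V t) := ⟨_, rfl⟩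
    have hyd : ∀ t, HasDerivAt y (c t * (‖V t‖ ^ 2 + inner ℝ (X t) (A t))) t := by
      intro t
      rw [hy]
      refine ((hX t).inner ℝ (hV t)).congr_deriv ?_
      rw [real_inner_smul_left, real_inner_smul_right, real_inner_self_eq_norm_sq]; ring
    obtain ⟨Φ, hΦ⟩ : ∃ Φ : ℝ → ℝ, Φ = fun t => Real.arctan (y t / β) := ⟨_, rfl⟩
    obtain ⟨Φ', hΦ'⟩ : ∃ Φ' : ℝ → ℝ, Φ' = fun t => 1 / (1 + (y t / β) ^ 2) *
      (c t * (‖V t‖ ^ 2 + inner ℝ (X t) (A t)) / β) := ⟨_, rfl⟩
    have hΦd : ∀ t, HasDerivAt Φ (Φ' t) t := by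
      intro t
      rw [hΦ, hΦ']
      exact ((hyd t).div_const β).arctan
    have hΦT : Φ T - Φ 0 ≤ Real.pi := by
      rw [hΦ]
      have h1 := Real.arctan_lt_pi_div_two (y T / β)
      have h2 := Real.neg_pi_div_two_lt_arctan (y 0 / β)
      show Real.arctan (y T / β) - Real.arctan (y 0 / β) ≤ Real.pi
      linarith
    have hkey : ∀ t, 0 ≤ t → t ≤ T → c t ≤ 5 / (d * v) * Φ' t * ‖X t‖ ^ 2 := by
      intro t h1 h2
      obtain ⟨h3, h4, h5⟩ := hall t h1 h2
      obtain ⟨h6, h7⟩ := hVl t h1 h2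
      have hXt : 0 < ‖X t‖ := hdpos.trans_le h4
      have hct := hc t
      -- y' is large
      have h8 : -(v ^ 2 / 16) ≤ inner ℝ (X t) (A t) := by
        have e1 := hA t (by linarith) hXt
        have e2 := abs_real_inner_le_norm (X t) (A t)
        have e3 := neg_abs_le (inner ℝ (X t) (A t))
        have e4 : ‖X t‖ * ‖A t‖ * d ≤ v ^ 2 / 16 * d := by
          have : ‖X t‖ * ‖A t‖ * d ≤ ‖X t‖ * ‖A t‖ * ‖X t‖ := by gcongr
          nlinarith
        have e5 := le_of_mul_le_mul_right e4 hdpos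
        linarith
      have h9 : v ^ 2 / 2 ≤ ‖V t‖ ^ 2 + inner ℝ (X t) (A t) := by
        have : (3 / 4 * v) ^ 2 ≤ ‖V t‖ ^ 2 := by gcongr
        nlinarith
      -- N
      have h10 : d ^ 2 * (1 + (y t / β) ^ 2) ≤ 2 * ‖X t‖ ^ 2 := by
        have e1 : |y t| ≤ ‖X t‖ * (5 / 4 * v) := by
          rw [hy]
          refine (abs_real_inner_le_norm (X t) (V t)).trans ?_
          gcongr
        have e2 : (y t / β) ^ 2 * d ^ 2 ≤ ‖X t‖ ^ 2 := by
          have e3 : (y t) ^ 2 ≤ (‖X t‖ * (5 / 4 * v)) ^ 2 := by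
            rw [← sq_abs (y t)]; gcongr
          rw [div_pow, hβ, div_mul_eq_mul_div, div_le_iff₀ (by positivity)]
          have : ‖X t‖ ^ 2 * (5 / 4 * v * d) ^ 2 = (‖X t‖ * (5 / 4 * v)) ^ 2 * d ^ 2 := by ring
          rw [this]
          gcongr
        have e3 : d ^ 2 ≤ ‖X t‖ ^ 2 := by gcongr
        nlinarith
      have hN : 0 < 1 + (y t / β) ^ 2 := by positivity
      have h11 : 1 / (1 + (y t / β) ^ 2) * (c t * (v ^ 2 / 2) / β) ≤ Φ' t := by
        rw [hΦ']
        show _ ≤ 1 / (1 + (y t / β) ^ 2) * (c t * (‖V t‖ ^ 2 + inner ℝ (X t) (A t)) / β)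
        gcongr
      have h12 : c t ≤ 5 / (d * v) * (1 / (1 + (y t / β) ^ 2) * (c t * (v ^ 2 / 2) / β))
          * ‖X t‖ ^ 2 := by
        have e1 : 5 / (d * v) * (1 / (1 + (y t / β) ^ 2) * (c t * (v ^ 2 / 2) / β))
          * ‖X t‖ ^ 2 = c t * (2 * ‖X t‖ ^ 2) / (d ^ 2 * (1 + (y t / β) ^ 2)) := by
          rw [hβ]; field_simp; ring
        rw [e1, le_div_iff₀ (by positivity)]
        gcongr
      refine h12.trans ?_
      gcongr
    -- velocities
    have hVb : ‖V T - V 0‖ ≤ 20 * M / (d * v) * Real.pi := by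
      have := image_norm_le_of_norm_deriv_right_le_deriv_boundary (a := 0) (b := T)
        (f := fun s => V s - V 0) (f' := fun t => c t • A t)
        (fun t _ => ((hV t).sub_const _).continuousAt.continuousWithinAt)
        (fun t _ => ((hV t).sub_const _).hasDerivWithinAt)
        (B := fun t => 20 * M / (d * v) * (Φ t - Φ 0)) (B' := fun t => 20 * M / (d * v) * Φ' t)
        (by simp) (fun t => ((hΦd t).sub_const _).const_mul _)
        (by
          intro t ht
          obtain ⟨h3, h4, h5⟩ := hall t ht.1 ht.2.le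
          have hXt : 0 < ‖X t‖ := hdpos.trans_le h4
          have e1 := hA t (by linarith) hXt
          have e2 := hkey t ht.1 ht.2.le
          rw [norm_smul, Real.norm_of_nonneg (hc t).le]
          have e3 : 0 ≤ Φ' t := by
            by_contra hcon
            push Not at hcon
            have : 5 / (d * v) * Φ' t * ‖X t‖ ^ 2 ≤ 0 :=
              mul_nonpos_of_nonpos_of_nonneg
                (mul_nonpos_of_nonneg_of_nonpos (by positivity) hcon.le) (by positivity)
            linarith [hc t]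
          calc c t * ‖A t‖ ≤ 5 / (d * v) * Φ' t * ‖X t‖ ^ 2 * ‖A t‖ := by gcongr
            _ = 5 / (d * v) * Φ' t * (‖A t‖ * ‖X t‖ ^ 2) := by ring
            _ ≤ 5 / (d * v) * Φ' t * (4 * M) := by gcongr
            _ = _ := by ring)
      have h1 := this (right_mem_Icc.mpr hT)
      refine h1.trans ?_
      show 20 * M / (d * v) * (Φ T - Φ 0) ≤ _
      gcongr
    have hFb : |om e f (X T) (V T) - f0| ≤ 40 * M * rm / (d * v) * Real.pi := by
      have hFd : ∀ t, HasDerivAt (fun s => om e f (X s) (V s)) (c t * om e f (X t) (A t)) t := by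
        intro t
        have a1 : HasDerivAt (fun s => inner ℝ e (X s)) (inner ℝ e (c t • V t)) t :=
          ((innerSL ℝ e).hasFDerivAt.comp_hasDerivAt t (hX t))
        have a2 : HasDerivAt (fun s => inner ℝ f (X s)) (inner ℝ f (c t • V t)) t :=
          ((innerSL ℝ f).hasFDerivAt.comp_hasDerivAt t (hX t))
        have a3 : HasDerivAt (fun s => inner ℝ e (V s)) (inner ℝ e (c t • A t)) t :=
          ((innerSL ℝ e).hasFDerivAt.comp_hasDerivAt t (hV t))
        have a4 : HasDerivAt (fun s => inner ℝ f (V s)) (inner ℝ f (c t • A t)) t :=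
          ((innerSL ℝ f).hasFDerivAt.comp_hasDerivAt t (hV t))
        refine ((a1.mul a4).sub (a2.mul a3)).congr_deriv ?_
        unfold om
        simp only [real_inner_smul_right]
        ring
      have := image_norm_le_of_norm_deriv_right_le_deriv_boundary (a := 0) (b := T)
        (f := fun s => om e f (X s) (V s) - f0) (f' := fun t => c t * om e f (X t) (A t))
        (fun t _ => ((hFd t).sub_const _).continuousAt.continuousWithinAt)
        (fun t _ => ((hFd t).sub_const _).hasDerivWithinAt)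
        (B := fun t => 40 * M * rm / (d * v) * (Φ t - Φ 0))
        (B' := fun t => 40 * M * rm / (d * v) * Φ' t)
        (by simp [homef]) (fun t => ((hΦd t).sub_const _).const_mul _)
        (by
          intro t ht
          obtain ⟨h3, h4, h5⟩ := hall t ht.1 ht.2.le
          have hXt : 0 < ‖X t‖ := hdpos.trans_le h4
          have e1 := hom t (by linarith) hXt e f hef
          have e1' : |om e f (X t) (A t)| * ‖X t‖ ^ 2 ≤ 8 * M * rm := by
            refine e1.trans ?_
            have := hrr t ht.1 ht.2.le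
            gcongr
          have e2 := hkey t ht.1 ht.2.le
          rw [norm_mul, Real.norm_of_nonneg (hc t).le, Real.norm_eq_abs]
          have e3 : 0 ≤ Φ' t := by
            by_contra hcon
            push Not at hcon
            have : 5 / (d * v) * Φ' t * ‖X t‖ ^ 2 ≤ 0 :=
              mul_nonpos_of_nonpos_of_nonneg
                (mul_nonpos_of_nonneg_of_nonpos (by positivity) hcon.le) (by positivity)
            linarith [hc t]
          calc c t * |om e f (X t) (A t)|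
              ≤ 5 / (d * v) * Φ' t * ‖X t‖ ^ 2 * |om e f (X t) (A t)| := by gcongr
            _ = 5 / (d * v) * Φ' t * (|om e f (X t) (A t)| * ‖X t‖ ^ 2) := by ring
            _ ≤ 5 / (d * v) * Φ' t * (8 * M * rm) := by gcongr
            _ = _ := by ring)
      have h1 := this (right_mem_Icc.mpr hT)
      rw [Real.norm_eq_abs] at h1
      refine h1.trans ?_
      show 40 * M * rm / (d * v) * (Φ T - Φ 0) ≤ _
      gcongr
    have hpi : Real.pi < 3.15 := Real.pi_lt_d2
    have hdvpos : 0 < d * v := by positivity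
    refine ⟨?_, ?_, ?_⟩
    · refine lt_of_le_of_lt hVb ?_
      rw [div_mul_eq_mul_div, div_lt_iff₀ hdvpos]
      have h1 : 20 * M * Real.pi ≤ 63 * M := by nlinarith
      have h2 : v / 4 * (d * v) = d * v ^ 2 / 4 := by ring
      rw [h2]
      linarith
    · obtain ⟨h6, h7⟩ := hVl T hT le_rfl
      have h1 := (le_abs_self _).trans (om_le hef (X T) (V T))
      have h2 := neg_abs_le (om e f (X T) (V T) - f0)
      have h3 : 40 * M * rm / (d * v) * Real.pi < 3 / 4 * (d * v) := by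
        rw [div_mul_eq_mul_div, div_lt_iff₀ hdvpos]
        have e1 : 40 * M * rm * Real.pi ≤ 126 * M * rm := by
          have : 0 < M * rm := by positivity
          nlinarith
        refine lt_of_le_of_lt e1 ?_
        have e2 : (126 * M * rm) * v ^ 2 < (3 / 4 * (d * v) * (d * v)) * v ^ 2 := by
          have e3 : (126 * M * rm) * v ^ 2 = 1008 * M * B := by
            linear_combination (126 * M) * hrmv
          have e4 : (3 / 4 * (d * v) * (d * v)) * v ^ 2 = 3 / 4 * (d * v ^ 2) ^ 2 := by ring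
          rw [e3, e4]
          have e5 : (512 * (M + B)) ^ 2 ≤ (d * v ^ 2) ^ 2 := by gcongr
          have e6 : 0 < M * B := by positivity
          nlinarith [sq_nonneg (M - B)]
        exact lt_of_mul_lt_mul_right e2 (by positivity)
      have h4 : ‖X T‖ * ‖V T‖ ≤ ‖X T‖ * (5 / 4 * v) := by gcongr
      have h5 : d * (5 / 4 * v) < ‖X T‖ * (5 / 4 * v) := by
        have : d * (5 / 4 * v) = 5 / 4 * (f0 / 2) := by rw [← hdv]; ring
        linarith [hdv]
      exact lt_of_mul_lt_mul_right h5 (by positivity)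
    · have := hrr T hT le_rfl
      linarith
  -- conclusion by continuous induction
  have hXc : Continuous X := continuous_iff_continuousAt.mpr fun t => (hX t).continuousAt
  have hVc : Continuous V := continuous_iff_continuousAt.mpr fun t => (hV t).continuousAt
  let g : Fin 3 → ℝ → ℝ := ![fun t => v / 4 - ‖V t - V 0‖, fun t => ‖X t‖ - d,
    fun t => d - 4 * r t]
  have hg := hBoot (Fin 3) g
    (by
      intro α
      fin_cases α
      · exact continuous_const.sub (hVc.sub continuous_const).norm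
      · exact hXc.norm.sub continuous_const
      · exact continuous_const.sub (continuous_const.mul hr))
    (by
      intro α
      fin_cases α
      · show 0 < v / 4 - ‖V 0 - V 0‖
        rw [sub_self, norm_zero]; linarith
      · show 0 < ‖X 0‖ - d
        linarith
      · show 0 < d - 4 * r 0
        have := hrt 0 h0 (by linarith) (by rw [← hv]; linarith)
        linarith)
    (by
      intro T hT hall
      have h1 := hstep T hT (fun t h1 h2 => by
        have a0 : 0 ≤ v / 4 - ‖V t - V 0‖ := hall t h1 h2 0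
        have a1 : 0 ≤ ‖X t‖ - d := hall t h1 h2 1
        have a2 : 0 ≤ d - 4 * r t := hall t h1 h2 2
        exact ⟨by linarith, by linarith, by linarith⟩)
      intro α
      fin_cases α
      · show 0 < v / 4 - ‖V T - V 0‖
        linarith [h1.1]
      · show 0 < ‖X T‖ - d
        linarith [h1.2.1]
      · show 0 < d - 4 * r T
        linarith [h1.2.2])
  intro t ht
  have := hg t ht 0
  have h1 : 0 < v / 4 - ‖V t - V 0‖ := this
  rw [← hv]
  linarith

end Pool.Agent.N677.NW
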