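import Pool.Agent.Y407.NW.Cyl
import Pool.Agent.Y407.NW.Push

set_option autoImplicit false

/-! MP_70f7a7_an, three bodies: volume of the set of velocities `v` with `|X × v| |v|` small. -/

namespace Pool.Agent.N677.NW

open MeasureTheory Set Pool.Agent.Y516.NW
open scoped Pointwise

theorem gr_nonneg (X v : E3) : 0 ≤ gr X v := by
  unfold gr
  have h2 := abs_real_inner_le_norm X v
  have h3 : (inner ℝ X v) ^ 2 ≤ (‖X‖ * ‖v‖) ^ 2 := by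
    rw [← sq_abs]
    exact pow_le_pow_left₀ (abs_nonneg _) h2 2
  have h4 : (‖X‖ * ‖v‖) ^ 2 = ‖X‖ ^ 2 * ‖v‖ ^ 2 := by ring
  linarith

theorem gr_sm (X V : E3) (s : ℝ) : gr X (s • V) = s ^ 2 * gr X V := by
  unfold gr
  rw [norm_smul, inner_smul_right, Real.norm_eq_abs, mul_pow, sq_abs]; ring

theorem vol_smul (s : ℝ) (hs : 0 < s) (A : Set E3) :
    volume (s • A) = ENNReal.ofReal (s ^ 3) * volume A := by
  rw [Measure.addHaar_smul]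
  have hfr : Module.finrank ℝ E3 = 3 := finrank_euclideanSpace_fin
  rw [hfr, abs_of_pos (by positivity)]

/-- unit case -/
theorem unit3 : ∃ C : ℝ, 0 ≤ C ∧ ∀ X : E3, X ≠ 0 →
    volume {v : E3 | gr X v * ‖v‖ ^ 2 < ‖X‖ ^ 2} ≤ ENNReal.ofReal C := by
  obtain ⟨C, hC, h⟩ := Pool.Agent.Y407.NW.cyl 1 one_pos
  obtain ⟨β, hβ⟩ : ∃ β, β = volume (Metric.closedBall (0 : E3) 1) := ⟨_, rfl⟩
  have hβt : β ≠ ⊤ := by rw [hβ]; exact measure_closedBall_lt_top.ne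
  have hβr : β = ENNReal.ofReal β.toReal := (ENNReal.ofReal_toReal hβt).symm
  refine ⟨β.toReal + 4 * C, add_nonneg ENNReal.toReal_nonneg (by positivity), fun X hX => ?_⟩
  have hX0 : 0 < ‖X‖ := norm_pos_iff.2 hX
  let S : ℕ → Set E3 := fun k => ((2:ℝ) ^ (k + 1)) •
    {u : E3 | ‖u‖ ≤ 1 ∧ gr X u < (1 / 4 * (1 / 16) ^ k) * ‖X‖ ^ 2}
  have hS : ∀ k, volume (S k) ≤ ENNReal.ofReal (2 * C * (1 / 2) ^ k) := by
    intro k
    show volume (((2:ℝ) ^ (k + 1)) •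
      {u : E3 | ‖u‖ ≤ 1 ∧ gr X u < (1 / 4 * (1 / 16) ^ k) * ‖X‖ ^ 2}) ≤ _
    rw [vol_smul _ (by positivity)]
    refine (mul_le_mul_right (h X hX (1 / 4 * (1 / 16) ^ k) (by positivity)) _).trans ?_
    rw [← ENNReal.ofReal_mul (by positivity)]
    refine ENNReal.ofReal_le_ofReal (le_of_eq ?_)
    have e1 : ((2:ℝ) ^ (k + 1)) ^ 3 = 8 * 8 ^ k := by
      rw [← pow_mul, mul_comm, pow_mul]; norm_num; rw [pow_succ]; ring
    have e2 : (8:ℝ) ^ k * (1 / 16) ^ k = (1 / 2) ^ k := by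
      rw [← mul_pow]; norm_num
    rw [e1]
    calc 8 * (8:ℝ) ^ k * (C * (1 / 4 * (1 / 16) ^ k))
        = 2 * C * ((8:ℝ) ^ k * (1 / 16) ^ k) := by ring
      _ = _ := by rw [e2]
  have hcov : {v : E3 | gr X v * ‖v‖ ^ 2 < ‖X‖ ^ 2} ⊆ Metric.closedBall 0 1 ∪ ⋃ k, S k := by
    intro v hv
    have hv' : gr X v * ‖v‖ ^ 2 < ‖X‖ ^ 2 := hv
    by_cases h1 : ‖v‖ ≤ 1
    · left; rw [Metric.mem_closedBall, dist_zero_right]; exact h1
    right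
    push Not at h1
    obtain ⟨k, hk1, hk2⟩ := exists_nat_pow_near h1.le (one_lt_two : (1:ℝ) < 2)
    rw [mem_iUnion]
    refine ⟨k, ?_⟩
    have h2 : (0:ℝ) < 2 ^ (k + 1) := by positivity
    refine ⟨((2:ℝ) ^ (k + 1))⁻¹ • v, ⟨?_, ?_⟩, ?_⟩
    · rw [norm_smul, norm_inv, Real.norm_of_nonneg h2.le, inv_mul_le_iff₀ h2]
      linarith
    · rw [gr_sm]
      have e1 : gr X v * (2 ^ k) ^ 2 < ‖X‖ ^ 2 := by
        refine lt_of_le_of_lt ?_ hv'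
        have := gr_nonneg X v
        gcongr
      have e2 : (((2:ℝ) ^ (k + 1))⁻¹) ^ 2 = (1 / 4 * (1 / 16) ^ k) * (2 ^ k) ^ 2 := by
        have h16 : (16:ℝ) ^ k = ((2:ℝ) ^ k) ^ 4 := by
          rw [← pow_mul, mul_comm, pow_mul]; norm_num
        have h3 : (0:ℝ) < 2 ^ k := by positivity
        have h5 : (2:ℝ) ^ (k + 1) = 2 ^ k * 2 := pow_succ _ _
        rw [one_div_pow, h16, h5]
        generalize (2:ℝ) ^ k = z at h3 ⊢
        field_simp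
        norm_num
      rw [e2, mul_assoc]
      have e3 : (0:ℝ) < 1 / 4 * (1 / 16) ^ k := by positivity
      have e4 : (2 ^ k) ^ 2 * gr X v < ‖X‖ ^ 2 := by linarith
      exact mul_lt_mul_of_pos_left e4 e3
    · show (2:ℝ) ^ (k + 1) • ((2:ℝ) ^ (k + 1))⁻¹ • v = v
      rw [smul_smul, mul_inv_cancel₀ h2.ne', one_smul]
  refine (measure_mono hcov).trans ((measure_union_le _ _).trans ?_)
  rw [ENNReal.ofReal_add ENNReal.toReal_nonneg (by positivity), ← hβr, hβ]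
  gcongr
  refine (measure_iUnion_le _).trans ((ENNReal.tsum_le_tsum hS).trans (le_of_eq ?_))
  have hsum : Summable fun k : ℕ => 2 * C * (1 / 2 : ℝ) ^ k :=
    (summable_geometric_two).mul_left _
  rw [← ENNReal.ofReal_tsum_of_nonneg (fun k => by positivity) hsum, tsum_mul_left,
    tsum_geometric_two]
  congr 1
  ring

theorem cyl3 : ∃ C : ℝ, 0 ≤ C ∧ ∀ X : E3, X ≠ 0 → ∀ s : ℝ, 0 < s →
    volume {v : E3 | gr X v * ‖v‖ ^ 2 < s ^ 4 * ‖X‖ ^ 2} ≤ ENNReal.ofReal (C * s ^ 3) := by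
  obtain ⟨C, hC, h⟩ := unit3
  refine ⟨C, hC, fun X hX s hs => ?_⟩
  have h1 : {v : E3 | gr X v * ‖v‖ ^ 2 < s ^ 4 * ‖X‖ ^ 2} ⊆
      s • {v : E3 | gr X v * ‖v‖ ^ 2 < ‖X‖ ^ 2} := by
    intro v hv
    have hv' : gr X v * ‖v‖ ^ 2 < s ^ 4 * ‖X‖ ^ 2 := hv
    refine ⟨s⁻¹ • v, ?_, by show s • s⁻¹ • v = v; rw [smul_smul, mul_inv_cancel₀ hs.ne', one_smul]⟩
    show gr X (s⁻¹ • v) * ‖s⁻¹ • v‖ ^ 2 < ‖X‖ ^ 2
    rw [gr_sm, norm_smul, Real.norm_of_nonneg (inv_nonneg.mpr hs.le)]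
    have : s⁻¹ ^ 2 * gr X v * (s⁻¹ * ‖v‖) ^ 2 = (gr X v * ‖v‖ ^ 2) / s ^ 4 := by
      field_simp
    rw [this, div_lt_iff₀ (by positivity)]
    linarith
  refine (measure_mono h1).trans ?_
  rw [vol_smul s hs, mul_comm C, ENNReal.ofReal_mul (by positivity)]
  gcongr
  exact h X hX

theorem slab3 {n : ℕ} (V : (Fin n → E3) →ₗ[ℝ] E3) (hV : Function.Surjective V) (R : ℝ) :
    ∃ C : ℝ, 0 ≤ C ∧ ∀ X : E3, X ≠ 0 → ∀ s : ℝ, 0 < s →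
      volume {P : Fin n → E3 | ‖P‖ ≤ R ∧ gr X (V P) * ‖V P‖ ^ 2 < s ^ 4 * ‖X‖ ^ 2} ≤
        ENNReal.ofReal (C * s ^ 3) := by
  obtain ⟨C1, hC1, h1⟩ := Pool.Agent.Y407.NW.push n V hV R
  obtain ⟨C2, hC2, h2⟩ := cyl3
  refine ⟨C1 * C2, mul_nonneg hC1 hC2, fun X hX s hs => ?_⟩
  refine (h1 {v : E3 | gr X v * ‖v‖ ^ 2 < s ^ 4 * ‖X‖ ^ 2}).trans ?_
  rw [mul_assoc, ENNReal.ofReal_mul hC1]
  gcongr
  exact h2 X hX s hs

end Pool.Agent.N677.NW
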