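import Pool.Agent.Y516.NW.Wand
import Pool.Agent.N677.NW.Acc3

set_option autoImplicit false

/-! MP_70f7a7_an, three bodies: a third body with large `|X × V| |V|` escapes, hence the point
is wandering. -/

namespace Pool.Agent.N677.NW

open MeasureTheory Set Pool.Agent.Y516.NW

/-- outer relative vector -/
noncomputable def rel (m : Fin 3 → ℝ) (a b c : Fin 3) (u : Cfg 3) : E3 :=
  cm m a b u a - cm m a b u c

theorem dist3 (m : Fin 3 → ℝ) (hm : ∀ i, 0 < m i) {a b c : Fin 3} (hab : a ≠ b) (hac : a ≠ c)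
    (hbc : b ≠ c) (q : Cfg 3) (h : 4 * ‖q a - q b‖ ≤ ‖rel m a b c q‖) :
    ∀ i j, P2 a b i j → ‖rel m a b c q‖ / 4 ≤ ‖q i - q j‖ := by
  have cc : cm m a b q c = q c := by unfold cm; simp [hac.symm, hbc.symm]
  have cb : cm m a b q b = cm m a b q a := by unfold cm; simp
  have h0 : 0 ≤ ‖rel m a b c q‖ := norm_nonneg _
  have key : ∀ Y : E3, ‖Y - cm m a b q a‖ ≤ ‖q a - q b‖ → ‖rel m a b c q‖ / 4 ≤ ‖Y - q c‖ := by
    intro Y hY
    have h1 : rel m a b c q = -(Y - cm m a b q a) + (Y - q c) := by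
      unfold rel; rw [cc]; abel
    have h2 : ‖rel m a b c q‖ ≤ ‖Y - cm m a b q a‖ + ‖Y - q c‖ := by
      calc ‖rel m a b c q‖ = ‖-(Y - cm m a b q a) + (Y - q c)‖ := by rw [← h1]
        _ ≤ ‖-(Y - cm m a b q a)‖ + ‖Y - q c‖ := norm_add_le _ _
        _ = _ := by rw [norm_neg]
    linarith
  have ka := key (q a) (near m hm a b q a)
  have kb := key (q b) (by rw [← cb]; exact near m hm a b q b)
  intro i j hP
  obtain ⟨h1, h2, h3⟩ := hP
  have hi : i = a ∨ i = b ∨ i = c := by omega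
  have hj : j = a ∨ j = b ∨ j = c := by omega
  rcases hi with rfl | rfl | rfl <;> rcases hj with rfl | rfl | rfl
  · exact absurd rfl h1
  · exact absurd ⟨rfl, rfl⟩ h2
  · exact ka
  · exact absurd ⟨rfl, rfl⟩ h3
  · exact absurd rfl h1
  · exact kb
  · rw [norm_sub_rev]; exact ka
  · rw [norm_sub_rev]; exact kb
  · exact absurd rfl h1

theorem curve3 (hBoot : BootStm) (hEner : EnerStm)
    (m : Fin 3 → ℝ) (M μ : ℝ) (hμ : 0 < μ) (hm : ∀ i, μ ≤ m i) (hM : ∑ i, m i ≤ M)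
    {a b c : Fin 3} (hab : a ≠ b) (hac : a ≠ c) (hbc : b ≠ c)
    (q v : ℝ → Cfg 3) (cc τ : ℝ → ℝ) (E : ℝ) (hE : E ≤ 0)
    (hmot : Mot m E q v cc τ) (h0 : 4 * ‖q 0 a - q 0 b‖ ≤ ‖rel m a b c (q 0)‖)
    (hK : (1024 * (M + M ^ 2 / μ)) ^ 2 ≤ gr (rel m a b c (q 0)) (rel m a b c (v 0)) *
      ‖rel m a b c (v 0)‖ ^ 2) :
    ∀ t, 0 ≤ t → ‖rel m a b c (v t) - rel m a b c (v 0)‖ ≤ ‖rel m a b c (v 0)‖ / 4 := by
  have hmpos : ∀ i, 0 < m i := fun i => hμ.trans_le (hm i)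
  have hsum : m a + m b + m c ≤ M := by rw [← sum3 hab hac hbc m]; exact hM
  have hMpos : 0 < M := by have := hmpos a; have := hmpos b; have := hmpos c; linarith
  have hqc : ∀ i, Continuous fun t => q t i := fun i =>
    continuous_iff_continuousAt.mpr fun t => (hmot.qd t i).continuousAt
  refine boot3 hBoot M μ hMpos hμ (fun t => rel m a b c (q t)) (fun t => rel m a b c (v t))
    (fun t => rel m a b c (acc m (q t))) (fun t => ‖q t a - q t b‖) cc hmot.cpos ?_ ?_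
    ((hqc a).sub (hqc b)).norm (fun t => norm_nonneg _) ?_ ?_ ?_ h0 hK
  · intro t
    have e1 := cm_hasDerivAt m a b q (fun i => cc t • v t i) t (hmot.qd t) a
    have e2 := cm_hasDerivAt m a b q (fun i => cc t • v t i) t (hmot.qd t) c
    rw [cm_smul] at e1 e2
    refine (e1.sub e2).congr_deriv ?_
    rw [← smul_sub]; rfl
  · intro t
    have e1 := cm_hasDerivAt m a b v (fun i => cc t • acc m (q t) i) t (hmot.vd t) a
    have e2 := cm_hasDerivAt m a b v (fun i => cc t • acc m (q t) i) t (hmot.vd t) c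
    rw [cm_smul] at e1 e2
    refine (e1.sub e2).congr_deriv ?_
    rw [← smul_sub]; rfl
  · intro t h1 h2
    have h3 := (near' m hmpos hab hac hbc (q t) (near m hmpos a b (q t)) h1 h2).1
    refine h3.trans ?_
    linarith
  · intro t h1 h2 e f hef
    have h3 := (near' m hmpos hab hac hbc (q t) (near m hmpos a b (q t)) h1 h2).2 e f hef
    refine h3.trans ?_
    gcongr
  · intro t h1 d u hd hdX hu huV
    refine hEner 3 m M μ hμ hm hM a b hab (q t) (v t) E d u hE hd hu (hmot.ne t) (hmot.en t)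
      (fun i j hP => ?_) a c ⟨hac, fun h => hbc h.2.symm, fun h => hab h.1⟩ huV
    have := dist3 m hmpos hab hac hbc (q t) h1 i j hP
    have hdX' : d ≤ ‖rel m a b c (q t)‖ := hdX
    linarith

theorem wander3 (hBoot : BootStm) (hEner : EnerStm) (hLoc : LocStm)
    (m : Fin 3 → ℝ) (M μ : ℝ) (hμ : 0 < μ) (hm : ∀ i, μ ≤ m i) (hM : ∑ i, m i ≤ M)
    {a b c : Fin 3} (hab : a ≠ b) (hac : a ≠ c) (hbc : b ≠ c)
    (E : ℝ) (hE : E ≤ 0) (ψ : Cfg 3 × Cfg 3 → ℝ)
    (φ : ℝ → Cfg 3 × Cfg 3 → Cfg 3 × Cfg 3) (hφ : IsFl m E ψ φ) (x : Cfg 3 × Cfg 3)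
    (hx : x ∈ Surf m E) (hr : 4 * ‖x.1 a - x.1 b‖ < ‖rel m a b c x.1‖)
    (hK : (1024 * (M + M ^ 2 / μ)) ^ 2 < gr (rel m a b c x.1) (rel m a b c (vel m x)) *
      ‖rel m a b c (vel m x)‖ ^ 2) :
    ¬ NonW (Surf m E) φ x := by
  have hmpos : ∀ i, 0 < m i := fun i => hμ.trans_le (hm i)
  set V0 : E3 := rel m a b c (vel m x) with hV0
  obtain ⟨w, hw⟩ : ∃ w : ℝ, w = ‖V0‖ := ⟨_, rfl⟩
  have hwpos : 0 < w := by
    rw [hw]
    refine norm_pos_iff.mpr fun h => ?_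
    rw [h] at hK
    have h1 : 0 ≤ (1024 * (M + M ^ 2 / μ)) ^ 2 := sq_nonneg _
    simp at hK
    linarith
  -- the neighbourhood
  have c1 : Continuous fun y : Cfg 3 × Cfg 3 => rel m a b c y.1 :=
    (cm_cont1 m a b a).sub (cm_cont1 m a b c)
  have c2 : Continuous fun y : Cfg 3 × Cfg 3 => rel m a b c (vel m y) :=
    (cm_cont2 m a b a).sub (cm_cont2 m a b c)
  let U1 : Set (Cfg 3 × Cfg 3) := {y | (1024 * (M + M ^ 2 / μ)) ^ 2 <
    gr (rel m a b c y.1) (rel m a b c (vel m y)) * ‖rel m a b c (vel m y)‖ ^ 2}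
  let U2 : Set (Cfg 3 × Cfg 3) := {y | 4 * ‖y.1 a - y.1 b‖ < ‖rel m a b c y.1‖}
  let U3 : Set (Cfg 3 × Cfg 3) := {y | ‖rel m a b c (vel m y) - V0‖ < w / 16}
  have hU1 : IsOpen U1 := by
    refine isOpen_lt continuous_const ?_
    unfold gr
    exact (((c1.norm.pow 2).mul (c2.norm.pow 2)).sub ((c1.inner c2).pow 2)).mul (c2.norm.pow 2)
  have hU2 : IsOpen U2 := isOpen_lt
    (continuous_const.mul (((continuous_apply a).comp continuous_fst).sub
      ((continuous_apply b).comp continuous_fst)).norm) c1.norm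
  have hU3 : IsOpen U3 := isOpen_lt (c2.sub continuous_const).norm continuous_const
  have hxU1 : x ∈ U1 := hK
  have hxU2 : x ∈ U2 := hr
  have hxU3 : x ∈ U3 := by
    show ‖rel m a b c (vel m x) - V0‖ < w / 16
    rw [← hV0, sub_self, norm_zero]; positivity
  -- local time
  obtain ⟨V1, hV1o, hxV1, s1, hs1, η, hη, hloc⟩ := hLoc (Cfg 3 × Cfg 3) (Free 3) (Surf m E)
    (Z m ψ) ψ φ free_open (surf_free m E) (Z_cont m ψ hφ.cont) hφ.cont hφ.pos hφ.flow x
    (surf_free m E hx)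
  let G : Cfg 3 × Cfg 3 → ℝ := fun y => inner ℝ V0 (rel m a b c y.1)
  have hGc : Continuous G := continuous_const.inner c1
  -- growth
  have hgrow : ∀ y ∈ (U1 ∩ U2 ∩ U3) ∩ V1 ∩ Surf m E, ∀ t ≥ s1,
      w ^ 2 / 2 * η ≤ G (φ t y) - G y := by
    rintro y ⟨⟨⟨⟨hy1, hy2⟩, hy3⟩, hyV⟩, hyS⟩ t ht
    obtain ⟨τ, hmot⟩ := mot_of_flow m hmpos E ψ φ hφ y hyS
    have hη' := hloc y ⟨hyV, hyS⟩ τ hmot.τ0 hmot.τd t ht
    have h0 : φ 0 y = y := (hφ.flow y hyS).1
    have hcur := curve3 hBoot hEner m M μ hμ hm hM hab hac hbc _ _ _ τ E hE hmot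
      (by
        rw [h0]
        have : 4 * ‖y.1 a - y.1 b‖ < ‖rel m a b c y.1‖ := hy2
        exact this.le)
      (by
        rw [h0]
        have : (1024 * (M + M ^ 2 / μ)) ^ 2 < gr (rel m a b c y.1) (rel m a b c (vel m y)) *
          ‖rel m a b c (vel m y)‖ ^ 2 := hy1
        exact this.le)
    have hder : ∀ s, HasDerivAt (fun s => G (φ s y) - w ^ 2 / 2 * τ s)
        (inner ℝ V0 (ψ (φ s y) • rel m a b c (vel m (φ s y)))
          - w ^ 2 / 2 * ψ (φ s y)) s := by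
      intro s
      have e1 := cm_hasDerivAt m a b _ (fun i => ψ (φ s y) • vel m (φ s y) i) s (hmot.qd s) a
      have e2 := cm_hasDerivAt m a b _ (fun i => ψ (φ s y) • vel m (φ s y) i) s (hmot.qd s) c
      rw [cm_smul] at e1 e2
      have e3 := (e1.sub e2)
      rw [← smul_sub] at e3
      have e4 : HasDerivAt (fun s => inner ℝ V0 (rel m a b c (φ s y).1))
          (inner ℝ V0 (ψ (φ s y) • rel m a b c (vel m (φ s y)))) s :=
        ((innerSL ℝ V0).hasFDerivAt.comp_hasDerivAt s e3)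
      exact e4.sub ((hmot.τd s).const_mul _)
    have hmono : MonotoneOn (fun s => G (φ s y) - w ^ 2 / 2 * τ s) (Ici 0) := by
      refine monotoneOn_of_deriv_nonneg (convex_Ici 0)
        (fun s _ => (hder s).continuousAt.continuousWithinAt)
        (fun s _ => (hder s).differentiableAt.differentiableWithinAt) ?_
      intro s hs
      rw [interior_Ici] at hs
      rw [(hder s).deriv, inner_smul_right]
      have hc := hmot.cpos s
      have e1 := hcur s (le_of_lt hs)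
      rw [h0] at e1
      have e2 : ‖rel m a b c (vel m y) - V0‖ < w / 16 := hy3
      set A := rel m a b c (vel m (φ s y))
      set B := rel m a b c (vel m y)
      have e1' : ‖A - B‖ ≤ ‖B‖ / 4 := e1
      have e0 : ‖B‖ ≤ w + w / 16 := by
        have : B = (B - V0) + V0 := by abel
        calc ‖B‖ = ‖(B - V0) + V0‖ := by rw [← this]
          _ ≤ ‖B - V0‖ + ‖V0‖ := norm_add_le _ _
          _ ≤ _ := by rw [← hw]; linarith
      have e3 : ‖A - V0‖ ≤ w / 2 := by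
        have : A - V0 = (A - B) + (B - V0) := by abel
        rw [this]
        refine (norm_add_le _ _).trans ?_
        linarith
      have e4 : inner ℝ V0 A = ‖V0‖ ^ 2 + inner ℝ V0 (A - V0) := by
        rw [inner_sub_right V0 A V0, real_inner_self_eq_norm_sq]; ring
      have e5 : -(‖V0‖ * (w / 2)) ≤ inner ℝ V0 (A - V0) := by
        have h1 := abs_real_inner_le_norm V0 (A - V0)
        have h2 : ‖V0‖ * ‖A - V0‖ ≤ ‖V0‖ * (w / 2) := by gcongr
        have h3 := neg_abs_le (inner ℝ V0 (A - V0))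
        linarith
      have e6 : w ^ 2 / 2 ≤ inner ℝ V0 A := by
        rw [e4, ← hw]
        rw [← hw] at e5
        nlinarith
      have e7 : 0 ≤ ψ (φ s y) * (inner ℝ V0 A - w ^ 2 / 2) :=
        mul_nonneg hc.le (by linarith)
      linarith
    have h1 := hmono (show (0:ℝ) ∈ Ici 0 from mem_Ici.mpr le_rfl)
      (show t ∈ Ici (0:ℝ) from mem_Ici.mpr (by linarith)) (by linarith)
    simp only [h0, hmot.τ0, mul_zero, sub_zero] at h1
    have h2 : w ^ 2 / 2 * η ≤ w ^ 2 / 2 * τ t := by gcongr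
    linarith
  -- conclusion
  intro hNW
  let κ := w ^ 2 / 2 * η
  have hκ : 0 < κ := by positivity
  let U4 : Set (Cfg 3 × Cfg 3) := {y | |G y - G x| < κ / 2}
  have hU4 : IsOpen U4 := isOpen_lt ((hGc.sub continuous_const).abs) continuous_const
  have hxU4 : x ∈ U4 := by
    show |G x - G x| < κ / 2
    rw [sub_self, abs_zero]; positivity
  obtain ⟨t, ht, y, ⟨hyV, hyS⟩, hφy⟩ := hNW ((U1 ∩ U2 ∩ U3) ∩ V1 ∩ U4)
    ((((hU1.inter hU2).inter hU3).inter hV1o).inter hU4)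
    ⟨⟨⟨⟨hxU1, hxU2⟩, hxU3⟩, hxV1⟩, hxU4⟩ s1
  have h1 := hgrow y ⟨hyV.1, hyS⟩ t ht.le
  have h2 : |G y - G x| < κ / 2 := hyV.2
  have h3 : |G (φ t y) - G x| < κ / 2 := hφy.2
  rw [abs_lt] at h2 h3
  have h4 : κ = w ^ 2 / 2 * η := rfl
  linarith [h2.1, h2.2, h3.1, h3.2]

end Pool.Agent.N677.NW
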