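import Pool.Agent.Y516.NW.Fin
import Pool.Agent.N677.NW.Wand3
import Pool.Agent.N677.NW.Vol3

set_option autoImplicit false

/-! MP_70f7a7_an, three bodies: the proportion of nonwandering momenta. -/

namespace Pool.Agent.N677.NW

open MeasureTheory Set Pool.Agent.Y516.NW

theorem third : ∀ a b : Fin 3, a ≠ b → ∃ c : Fin 3, a ≠ c ∧ b ≠ c := by decide

/-- explicit wandering region, energy `≤ 0` -/
theorem region (m : Fin 3 → ℝ) (hm : ∀ i, 0 < m i) : ∃ C : ℝ, 0 < C ∧ ∀ E : ℝ, E ≤ 0 →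
    ∀ (ψ : Cfg 3 × Cfg 3 → ℝ) (φ : ℝ → Cfg 3 × Cfg 3 → Cfg 3 × Cfg 3), IsFl m E ψ φ →
    ∀ a b c : Fin 3, a ≠ b → a ≠ c → b ≠ c → ∀ x ∈ Surf m E,
      4 * ‖x.1 a - x.1 b‖ < ‖rel m a b c x.1‖ →
      C < gr (rel m a b c x.1) (rel m a b c (vel m x)) * ‖rel m a b c (vel m x)‖ ^ 2 →
      ¬ NonW (Surf m E) φ x := by
  obtain ⟨μ, hμ, hμm⟩ : ∃ μ : ℝ, 0 < μ ∧ ∀ i, μ ≤ m i := by
    obtain ⟨μi, _, hμi⟩ := Finset.exists_min_image Finset.univ m ⟨0, Finset.mem_univ _⟩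
    exact ⟨m μi, hm μi, fun i => hμi i (Finset.mem_univ _)⟩
  obtain ⟨M, hMdef⟩ : ∃ M : ℝ, M = ∑ i, m i := ⟨_, rfl⟩
  have hM : 0 < M := by
    rw [hMdef]; exact Finset.sum_pos (fun i _ => hm i) ⟨0, Finset.mem_univ _⟩
  refine ⟨(1024 * (M + M ^ 2 / μ)) ^ 2, by positivity, ?_⟩
  intro E hE ψ φ hφ a b c hab hac hbc x hx h1 h2
  exact wander3 Pool.Agent.Y275.NW.boot Pool.Agent.Y421.NW.ener Pool.Agent.Y275.NW.loc m M μ hμ
    hμm hMdef.ge hab hac hbc E hE ψ φ hφ x hx h1 h2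

theorem prop3 (m : Fin 3 → ℝ) (hm : ∀ i, 0 < m i) :
    ∃ C : ℝ, 0 < C ∧ ∀ E : ℝ, E ≤ 0 →
      ∀ (ψ : Cfg 3 × Cfg 3 → ℝ)
        (φ : ℝ → Cfg 3 × Cfg 3 → Cfg 3 × Cfg 3), IsFl m E ψ φ →
      ∀ q : Cfg 3, (∀ i j, i ≠ j → q i ≠ q j) → ∑ i, m i • q i = 0 →
      ∀ a b : Fin 3, a ≠ b → ∀ δ : ℝ, 0 < δ → (∀ i j, P2 a b i j → δ ≤ ‖q i - q j‖) →
      0 < pot m q + E →
      volume {P : Fin 2 → E3 | kin m (mom P) ≤ 1 ∧ NonW (Surf m E) φ
          (q, Real.sqrt ((pot m q + E) / kin m (mom P)) • mom P)} ≤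
        ENNReal.ofReal (C / (Real.sqrt (δ * (pot m q + E))) ^ 3) *
          volume {P : Fin 2 → E3 | kin m (mom P) ≤ 1} := by
  obtain ⟨K0, hK0, hreg⟩ := region m hm
  obtain ⟨M, hMdef⟩ : ∃ M : ℝ, M = ∑ i, m i := ⟨_, rfl⟩
  have hM : 0 < M := by
    rw [hMdef]; exact Finset.sum_pos (fun i _ => hm i) ⟨0, Finset.mem_univ _⟩
  obtain ⟨R, hR, hRb, hvol⟩ := Pool.Agent.Y317.NW.ball 2 m hm
  -- constants of the slabs
  have hch : ∀ a b c : Fin 3, ∃ C : ℝ, 0 ≤ C ∧ (a ≠ b → a ≠ c → b ≠ c →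
      ∀ X : E3, X ≠ 0 → ∀ s : ℝ, 0 < s →
        volume {P : Fin 2 → E3 | ‖P‖ ≤ R ∧ gr X (rel m a b c (fun k => (m k)⁻¹ • mom P k)) *
          ‖rel m a b c (fun k => (m k)⁻¹ • mom P k)‖ ^ 2 < s ^ 4 * ‖X‖ ^ 2}
          ≤ ENNReal.ofReal (C * s ^ 3)) := by
    intro a b c
    by_cases h : a ≠ b ∧ a ≠ c ∧ b ≠ c
    · obtain ⟨hab, hac, hbc⟩ := h
      obtain ⟨V, hV, hVe⟩ := Pool.Agent.Y275.NW.surj 2 m hm a b hab a c
        ⟨hac, fun h => hbc h.2.symm, fun h => hab h.1⟩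
      have hVe' : ∀ P : Fin 2 → E3, V P = rel m a b c (fun k => (m k)⁻¹ • mom P k) := hVe
      obtain ⟨C, hC, h⟩ := slab3 V hV R
      refine ⟨C, hC, fun _ _ _ X hX s hs => ?_⟩
      have := h X hX s hs
      simpa only [hVe'] using this
    · exact ⟨0, le_rfl, fun h1 h2 h3 => absurd ⟨h1, h2, h3⟩ h⟩
  choose Cf hCf0 hCf using hch
  obtain ⟨Cs, hCs0, hCsle⟩ : ∃ Cs : ℝ, 0 ≤ Cs ∧ ∀ a b c, Cf a b c ≤ Cs := by
    refine ⟨∑ a, ∑ b, ∑ c, Cf a b c, Finset.sum_nonneg fun a _ =>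
      Finset.sum_nonneg fun b _ => Finset.sum_nonneg fun c _ => hCf0 a b c, fun a b c => ?_⟩
    have e1 : Cf a b c ≤ ∑ c', Cf a b c' := Finset.single_le_sum (f := fun c' => Cf a b c')
        (fun c' _ => hCf0 a b c') (Finset.mem_univ c)
    have e2 : ∑ c', Cf a b c' ≤ ∑ b', ∑ c', Cf a b' c' :=
      Finset.single_le_sum (f := fun b' => ∑ c', Cf a b' c')
        (fun b' _ => Finset.sum_nonneg fun i _ => hCf0 a b' i) (Finset.mem_univ b)
    have e3 : ∑ b', ∑ c', Cf a b' c' ≤ ∑ a', ∑ b', ∑ c', Cf a' b' c' :=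
      Finset.single_le_sum (f := fun a' => ∑ b', ∑ c', Cf a' b' c')
        (fun a' _ => Finset.sum_nonneg fun i _ => Finset.sum_nonneg fun j _ => hCf0 a' i j)
        (Finset.mem_univ a)
    exact e1.trans (e2.trans e3)
  obtain ⟨v0, hv0pos, hv0le⟩ : ∃ v0 : ℝ, 0 < v0 ∧
      ENNReal.ofReal v0 ≤ volume {P : Fin 2 → E3 | kin m (mom P) ≤ 1} := by
    have hmin : min (volume {P : Fin 2 → E3 | kin m (mom P) ≤ 1}) 1 ≠ ⊤ :=
      ne_top_of_le_ne_top ENNReal.one_ne_top (min_le_right _ _)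
    refine ⟨(min (volume {P : Fin 2 → E3 | kin m (mom P) ≤ 1}) 1).toReal, ?_, ?_⟩
    · exact ENNReal.toReal_pos (lt_min hvol one_pos).ne' hmin
    · rw [ENNReal.ofReal_toReal hmin]
      exact min_le_left _ _
  obtain ⟨σ0, hσ0, hσ0K⟩ : ∃ σ0 : ℝ, 0 < σ0 ∧ 8 * K0 ≤ σ0 ^ 4 := by
    refine ⟨1 + 8 * K0, by positivity, ?_⟩
    have h1 : 1 ≤ 1 + 8 * K0 := by linarith
    calc 8 * K0 ≤ 1 + 8 * K0 := by linarith
      _ = (1 + 8 * K0) ^ 1 := (pow_one _).symm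
      _ ≤ (1 + 8 * K0) ^ 4 := pow_le_pow_right₀ h1 (by norm_num)
  have hCpos : 0 < Cs * σ0 ^ 3 / v0 + (16 * M) ^ 3 + 1 := by positivity
  refine ⟨Cs * σ0 ^ 3 / v0 + (16 * M) ^ 3 + 1, hCpos, ?_⟩
  intro E hE ψ φ hφ q hq hcen a b hab δ hδ hδq hK
  obtain ⟨c, hac, hbc⟩ := third a b hab
  obtain ⟨K, hKdef⟩ : ∃ K : ℝ, K = pot m q + E := ⟨_, rfl⟩
  obtain ⟨C, hC⟩ : ∃ C : ℝ, C = Cs * σ0 ^ 3 / v0 + (16 * M) ^ 3 + 1 := ⟨_, rfl⟩
  rw [← hC] at hCpos ⊢
  rw [← hKdef] at hK ⊢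
  obtain ⟨g, hg⟩ : ∃ g : ℝ, g = Real.sqrt (δ * K) := ⟨_, rfl⟩
  have hgpos : 0 < g := by rw [hg]; exact Real.sqrt_pos.mpr (by positivity)
  have hg2 : g ^ 2 = δ * K := by rw [hg]; exact Real.sq_sqrt (by positivity)
  rw [← hg]
  by_cases hbig : g < 16 * M
  · -- trivial bound
    refine (measure_mono (fun P hP => hP.1)).trans ?_
    have h1 : 1 ≤ C / g ^ 3 := by
      rw [le_div_iff₀ (by positivity), one_mul]
      have : g ^ 3 ≤ (16 * M) ^ 3 := by gcongr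
      have h2 : 0 ≤ Cs * σ0 ^ 3 / v0 := by positivity
      linarith
    calc volume {P : Fin 2 → E3 | kin m (mom P) ≤ 1}
        = 1 * volume {P : Fin 2 → E3 | kin m (mom P) ≤ 1} := (one_mul _).symm
      _ ≤ _ := by
          gcongr
          rw [← ENNReal.ofReal_one]
          exact ENNReal.ofReal_le_ofReal h1
  push Not at hbig
  have hbig' : 256 * M ^ 2 ≤ δ * K := by
    rw [← hg2]
    nlinarith
  -- the tight pair
  have hab0 : 0 < ‖q a - q b‖ := norm_pos_iff.mpr (sub_ne_zero.mpr (hq a b hab))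
  have hr : ‖q a - q b‖ ≤ δ / 128 := by
    have h1 := Pool.Agent.Y421.NW.pot (q := q) hm hab (d := 4 * δ) (by positivity)
      (fun i j h => by have := hδq i j h; linarith)
    have h2 : pot m q = ∑ i, ∑ j, m i * m j / ‖q i - q j‖ / 2 := rfl
    rw [← h2, ← hMdef] at h1
    have h3 : 2 * M ^ 2 / (4 * δ) ≤ K / 512 := by
      rw [div_le_div_iff₀ (by positivity) (by norm_num)]
      nlinarith
    have h4 : K / 2 ≤ m a * m b / ‖q a - q b‖ := by
      have : K ≤ pot m q := by linarith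
      linarith
    rw [le_div_iff₀ hab0] at h4
    have h5 : m a * m b ≤ M ^ 2 := by
      have e1 : m a ≤ M := hMdef ▸ Finset.single_le_sum (fun i _ => (hm i).le) (Finset.mem_univ a)
      have e2 : m b ≤ M := hMdef ▸ Finset.single_le_sum (fun i _ => (hm i).le) (Finset.mem_univ b)
      have := mul_le_mul e1 e2 (hm b).le hM.le
      nlinarith
    have h6 : K * ‖q a - q b‖ * 128 ≤ K * δ := by nlinarith
    have h7 : K * (‖q a - q b‖ * 128) ≤ K * δ := by linarith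
    have := le_of_mul_le_mul_left h7 hK
    linarith
  have hPac : P2 a b a c := ⟨hac, fun h => hbc h.2.symm, fun h => hab h.1⟩
  have hXge : δ / 2 ≤ ‖rel m a b c q‖ := by
    have e3 := near m hm a b q a
    have cc : cm m a b q c = q c := by unfold cm; simp [hac.symm, hbc.symm]
    have e5 := hδq a c hPac
    have e6 : ‖q a - q c‖ ≤ ‖q a - cm m a b q a‖ + ‖rel m a b c q‖ := by
      have : q a - q c = (q a - cm m a b q a) + rel m a b c q := by
        unfold rel; rw [cc]; abel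
      rw [this]; exact norm_add_le _ _
    linarith
  have hXpos : 0 < ‖rel m a b c q‖ := by linarith
  obtain ⟨s, hs⟩ : ∃ s : ℝ, s = σ0 / g := ⟨_, rfl⟩
  have hspos : 0 < s := by rw [hs]; positivity
  have hsK : K0 < K ^ 2 * (s ^ 4 * ‖rel m a b c q‖ ^ 2) := by
    have e1 : K ^ 2 * (s ^ 4 * (δ / 2) ^ 2) = σ0 ^ 4 / 4 := by
      have : s ^ 4 = σ0 ^ 4 / (δ * K) ^ 2 := by
        rw [hs, div_pow, ← hg2]; ring
      rw [this]; field_simp; norm_num
    have e2 : K ^ 2 * (s ^ 4 * (δ / 2) ^ 2) ≤ K ^ 2 * (s ^ 4 * ‖rel m a b c q‖ ^ 2) := by gcongr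
    linarith
  -- inclusion
  have hincl : {P : Fin 2 → E3 | kin m (mom P) ≤ 1 ∧ NonW (Surf m E) φ
      (q, Real.sqrt (K / kin m (mom P)) • mom P)} ⊆
      {P | ‖P‖ ≤ R ∧ gr (rel m a b c q) (rel m a b c (fun k => (m k)⁻¹ • mom P k)) *
        ‖rel m a b c (fun k => (m k)⁻¹ • mom P k)‖ ^ 2 < s ^ 4 * ‖rel m a b c q‖ ^ 2} := by
    rintro P ⟨hP1, hP2⟩
    by_contra hcon
    have hgood : s ^ 4 * ‖rel m a b c q‖ ^ 2 ≤
        gr (rel m a b c q) (rel m a b c (fun k => (m k)⁻¹ • mom P k)) *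
          ‖rel m a b c (fun k => (m k)⁻¹ • mom P k)‖ ^ 2 := by
      by_contra hlt
      push Not at hlt
      exact hcon ⟨hRb P hP1, hlt⟩
    have hkin0 : 0 ≤ kin m (mom P) := Finset.sum_nonneg fun i _ => by
      have := hm i; positivity
    have hkin : 0 < kin m (mom P) := by
      refine lt_of_le_of_ne hkin0 fun h0 => ?_
      have hz : ∀ i, mom P i = 0 := by
        intro i
        have h1 := (Finset.sum_eq_zero_iff_of_nonneg (fun i _ => by
          have := hm i; positivity)).mp h0.symm i (Finset.mem_univ i)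
        have h2 : ‖mom P i‖ ^ 2 = 0 := by
          rcases div_eq_zero_iff.mp h1 with h | h
          · exact h
          · have := hm i; linarith
        exact norm_eq_zero.mp (pow_eq_zero_iff (by norm_num) |>.mp h2)
      have h4 : (fun k => (m k)⁻¹ • mom P k) = fun _ => (0 : E3) := by
        funext k; rw [hz k, smul_zero]
      have h5 : rel m a b c (fun _ => (0 : E3)) = 0 := by
        unfold rel cm; simp
      have h3 := hgood
      rw [h4, h5] at h3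
      have h7 : 0 < s ^ 4 * ‖rel m a b c q‖ ^ 2 := by positivity
      rw [norm_zero] at h3
      norm_num at h3
      linarith
    obtain ⟨z, hz⟩ : ∃ z : ℝ, z = Real.sqrt (K / kin m (mom P)) := ⟨_, rfl⟩
    rw [← hz] at hP2
    have hz2 : z ^ 2 = K / kin m (mom P) := by
      rw [hz]; exact Real.sq_sqrt (div_nonneg hK.le hkin.le)
    have hz2K : K ≤ z ^ 2 := by
      rw [hz2, le_div_iff₀ hkin]
      nlinarith
    have hvel : vel m (q, z • mom P) = fun k => z • ((m k)⁻¹ • mom P k) := by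
      funext k
      simp only [vel, Pi.smul_apply]
      rw [smul_comm]
    have hrel : rel m a b c (vel m (q, z • mom P)) =
        z • rel m a b c (fun k => (m k)⁻¹ • mom P k) := by
      unfold rel
      rw [hvel, cm_smul, cm_smul, ← smul_sub]
    have hsurf : (q, z • mom P) ∈ Surf m E := by
      refine ⟨hq, hcen, ?_, ?_⟩
      · have : ∑ i, (z • mom P) i = z • ∑ i, mom P i := by
          rw [Finset.smul_sum]; rfl
        rw [this, mom_sum, smul_zero]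
      · have h1 : ∑ i, ‖(z • mom P) i‖ ^ 2 / (2 * m i) = z ^ 2 * kin m (mom P) := by
          unfold kin
          rw [Finset.mul_sum]
          refine Finset.sum_congr rfl fun i _ => ?_
          rw [Pi.smul_apply, norm_smul, Real.norm_eq_abs, mul_pow, sq_abs]; ring
        show ∑ i, ‖(z • mom P) i‖ ^ 2 / (2 * m i) - pot m q = E
        rw [h1, hz2, div_mul_cancel₀ _ hkin.ne', hKdef]; ring
    refine hreg E hE ψ φ hφ a b c hab hac hbc (q, z • mom P) hsurf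
      (by show 4 * ‖q a - q b‖ < ‖rel m a b c q‖; linarith) ?_ hP2
    show K0 < gr (rel m a b c q) (rel m a b c (vel m (q, z • mom P))) *
      ‖rel m a b c (vel m (q, z • mom P))‖ ^ 2
    rw [hrel, gr_sm, norm_smul, Real.norm_eq_abs, mul_pow, sq_abs]
    obtain ⟨W, hW⟩ : ∃ W, W = rel m a b c (fun k => (m k)⁻¹ • mom P k) := ⟨_, rfl⟩
    rw [← hW] at hgood ⊢
    have h0 : 0 ≤ s ^ 4 * ‖rel m a b c q‖ ^ 2 := by positivity
    calc K0 < K ^ 2 * (s ^ 4 * ‖rel m a b c q‖ ^ 2) := hsK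
      _ ≤ (z ^ 2) ^ 2 * (s ^ 4 * ‖rel m a b c q‖ ^ 2) := by gcongr
      _ ≤ (z ^ 2) ^ 2 * (gr (rel m a b c q) W * ‖W‖ ^ 2) := by gcongr
      _ = z ^ 2 * gr (rel m a b c q) W * (z ^ 2 * ‖W‖ ^ 2) := by ring
  refine (measure_mono hincl).trans ((hCf a b c hab hac hbc _ (norm_pos_iff.mp hXpos) s
    hspos).trans ?_)
  calc ENNReal.ofReal (Cf a b c * s ^ 3) ≤ ENNReal.ofReal (C / g ^ 3 * v0) := by
        refine ENNReal.ofReal_le_ofReal ?_
        have h0 : Cf a b c * s ^ 3 ≤ Cs * s ^ 3 := by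
          have := hCsle a b c
          gcongr
        refine h0.trans ?_
        have h1 : Cs * s ^ 3 = (Cs * σ0 ^ 3 / v0) / g ^ 3 * v0 := by
          rw [hs]; field_simp
        rw [h1]
        gcongr
        have : 0 ≤ (16 * M) ^ 3 := by positivity
        linarith
    _ = ENNReal.ofReal (C / g ^ 3) * ENNReal.ofReal v0 :=
        ENNReal.ofReal_mul (by positivity)
    _ ≤ _ := by gcongr

end Pool.Agent.N677.NW
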