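import Pool.Agent.N677.NW.Fin3
import Pool.Agent.Y438.NW.Pos

set_option autoImplicit false

open MeasureTheory

namespace Pool.Agent.N677.NW.ThreeBodies

/-- The space `R³`. -/
abbrev R3 : Type := EuclideanSpace ℝ (Fin 3)

/-- Phase space: pairs (positions, momenta) of three bodies. -/
abbrev Phase : Type := (Fin 3 → R3) × (Fin 3 → R3)

/-- Kinetic energy of the momenta `p`. -/
noncomputable def kinetic (m : Fin 3 → ℝ) (p : Fin 3 → R3) : ℝ := ∑ i, ‖p i‖ ^ 2 / (2 * m i)

/-- The Newtonian potential `U(q) = ∑_{i<j} m_i m_j / |q_i - q_j|` (the energy is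
kinetic energy minus `U`). -/
noncomputable def potential (m : Fin 3 → ℝ) (q : Fin 3 → R3) : ℝ :=
  ∑ i, ∑ j, m i * m j / ‖q i - q j‖ / 2

/-- The energy surface `H = E` of the reduced three-body problem (centre of mass `0`, total
momentum `0`, no collisions). -/
def surface (m : Fin 3 → ℝ) (E : ℝ) : Set Phase :=
  {x | (∀ i j, i ≠ j → x.1 i ≠ x.1 j) ∧ ∑ i, m i • x.1 i = 0 ∧ ∑ i, x.2 i = 0 ∧
    kinetic m x.2 - potential m x.1 = E}

/-- `φ` is the complete flow on the energy surface obtained from the three-body flow by a smooth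
positive change of time `ψ`. -/
structure IsReparametrizedFlow (m : Fin 3 → ℝ) (E : ℝ) (ψ : Phase → ℝ)
    (φ : ℝ → Phase → Phase) : Prop where
  /-- `ψ` is smooth outside collisions -/
  smooth : ContDiffOn ℝ ((⊤ : ℕ∞) : WithTop ℕ∞) ψ {x | ∀ i j, i ≠ j → x.1 i ≠ x.1 j}
  /-- `ψ` is positive outside collisions -/
  pos : ∀ x : Phase, (∀ i j, i ≠ j → x.1 i ≠ x.1 j) → 0 < ψ x
  /-- orbits exist for all times and solve the reparametrized equations of motion -/
  flow : ∀ x ∈ surface m E, φ 0 x = x ∧ ∀ t : ℝ, φ t x ∈ surface m E ∧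
    HasDerivAt (fun s : ℝ => φ s x)
      (ψ (φ t x) • ((fun i => (m i)⁻¹ • (φ t x).2 i),
        (fun i => ∑ j, (m i * m j / ‖(φ t x).1 j - (φ t x).1 i‖ ^ 3) •
          ((φ t x).1 j - (φ t x).1 i)))) t

/-- `x` is a nonwandering point of the flow `φ` on the energy surface `S`. -/
def IsNonwandering (S : Set Phase) (φ : ℝ → Phase → Phase) (x : Phase) : Prop :=
  ∀ V : Set Phase, IsOpen V → x ∈ V → ∀ T : ℝ, ∃ t : ℝ, T < t ∧ ∃ y ∈ V ∩ S, φ t y ∈ V

/-- The momenta `(P_1, P_2, -P_1 - P_2)` of the three bodies. -/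
noncomputable def momenta (P : Fin 2 → R3) : Fin 3 → R3 := Fin.snoc P (-∑ i, P i)

/-- The same momenta scaled so that their kinetic energy is `K`. -/
noncomputable def scaled (m : Fin 3 → ℝ) (K : ℝ) (P : Fin 2 → R3) : Fin 3 → R3 :=
  Real.sqrt (K / kinetic m (momenta P)) • momenta P

theorem result (m : Fin 3 → ℝ) (hm : ∀ i, 0 < m i) :
    ∃ C : ℝ, 0 < C ∧ ∀ (E : ℝ) (ψ : Phase → ℝ) (φ : ℝ → Phase → Phase),
      IsReparametrizedFlow m E ψ φ →
      ∀ q : Fin 3 → R3, (∀ i j, i ≠ j → q i ≠ q j) → ∑ i, m i • q i = 0 →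
        0 < potential m q + E →
        ∀ a b : Fin 3, a ≠ b → ∀ δ : ℝ, 0 < δ →
        (∀ i j, i ≠ j → ¬(i = a ∧ j = b) → ¬(i = b ∧ j = a) → δ ≤ ‖q i - q j‖) →
        volume {P : Fin 2 → R3 | kinetic m (momenta P) ≤ 1 ∧
            IsNonwandering (surface m E) φ (q, scaled m (potential m q + E) P)} ≤
          ENNReal.ofReal (C / (δ * (potential m q + E)) ^ (3 / 2 : ℝ)) *
            volume {P : Fin 2 → R3 | kinetic m (momenta P) ≤ 1} := by
  obtain ⟨C, hC, h2⟩ := Pool.Agent.N677.NW.prop3 m hm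
  refine ⟨C, hC, ?_⟩
  intro E ψ φ hφ
  have hfl : Pool.Agent.Y516.NW.IsFl m E ψ φ := ⟨hφ.smooth.continuousOn, hφ.pos, hφ.flow⟩
  intro q hq hcen hK a b hab δ hδ hδq
  rcases le_or_gt E 0 with hE | hE
  · refine (h2 E hE ψ φ hfl q hq hcen a b hab δ hδ
      (fun i j hP => hδq i j hP.1 hP.2.1 hP.2.2) hK).trans ?_
    have hpos : 0 < δ * (potential m q + E) := mul_pos hδ hK
    have h3 : (Real.sqrt (δ * (potential m q + E))) ^ 3 =
        (δ * (potential m q + E)) ^ (3 / 2 : ℝ) := by
      rw [Real.sqrt_eq_rpow, ← Real.rpow_natCast, ← Real.rpow_mul hpos.le]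
      norm_num
    rw [← h3]
    exact le_rfl
  · refine le_trans (le_of_eq ?_) (zero_le)
    have hP := Pool.Agent.Y438.NW.pos 3 m hm E hE ψ φ hfl
    refine measure_mono_null (t := {P : Fin 2 → R3 | P = 0}) ?_ ?_
    · rintro P ⟨_, hP2⟩
      by_contra hne
      have hkin0 : 0 ≤ kinetic m (momenta P) := Finset.sum_nonneg fun i _ => by
        have := hm i; positivity
      have hkin : 0 < kinetic m (momenta P) := by
        refine lt_of_le_of_ne hkin0 fun h0 => hne ?_
        have hz : ∀ i, momenta P i = 0 := by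
          intro i
          have h1 := (Finset.sum_eq_zero_iff_of_nonneg (fun i _ => by
            have := hm i; positivity)).mp h0.symm i (Finset.mem_univ i)
          have h2 : ‖momenta P i‖ ^ 2 = 0 := by
            rcases div_eq_zero_iff.mp h1 with h | h
            · exact h
            · have := hm i; linarith
          exact norm_eq_zero.mp (pow_eq_zero_iff (by norm_num) |>.mp h2)
        funext k
        have := hz k.castSucc
        unfold momenta at this
        rw [Fin.snoc_castSucc] at this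
        exact this
      refine hP _ ?_ hP2
      refine ⟨hq, hcen, ?_, ?_⟩
      · have : ∑ i, (scaled m (potential m q + E) P) i =
            Real.sqrt ((potential m q + E) / kinetic m (momenta P)) • ∑ i, momenta P i := by
          rw [Finset.smul_sum]; rfl
        show ∑ i, (scaled m (potential m q + E) P) i = 0
        rw [this]
        have h0 : ∑ i, momenta P i = 0 := Pool.Agent.Y516.NW.mom_sum P
        rw [h0, smul_zero]
      · have h1 : ∑ i, ‖(scaled m (potential m q + E) P) i‖ ^ 2 / (2 * m i) =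
            (potential m q + E) / kinetic m (momenta P) * kinetic m (momenta P) := by
          rw [← Real.sq_sqrt (div_nonneg hK.le hkin0)]
          simp only [kinetic]
          rw [Finset.mul_sum]
          refine Finset.sum_congr rfl fun i _ => ?_
          simp only [scaled, Pi.smul_apply, norm_smul, Real.norm_eq_abs, mul_pow, sq_abs]
          rw [mul_div_assoc]
          rfl
        show ∑ i, ‖(scaled m (potential m q + E) P) i‖ ^ 2 / (2 * m i) - potential m q = E
        rw [h1, div_mul_cancel₀ _ hkin.ne']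
        ring
    · have h1 : {P : Fin 2 → R3 | P = 0} = {0} := rfl
      rw [h1]
      have h2 : Nonempty (Fin 2) := ⟨⟨0, by omega⟩⟩
      have h3 : (⊥ : Submodule ℝ (Fin 2 → R3)) ≠ ⊤ := bot_ne_top
      exact Measure.addHaar_submodule volume _ h3

end Pool.Agent.N677.NW.ThreeBodies
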