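import Pool.Agent.N677.NW.Fin3
import Pool.Agent.Y438.NW.Pos

set_option autoImplicit false

open MeasureTheory

namespace Pool.Agent.N677.NW.WanderingRegion

/-- The space `R³`. -/
abbrev R3 : Type := EuclideanSpace ℝ (Fin 3)

/-- Phase space: pairs (positions, momenta) of three bodies. -/
abbrev Phase : Type := (Fin 3 → R3) × (Fin 3 → R3)

/-- Kinetic energy of the momenta `p`. -/
noncomputable def kinetic (m : Fin 3 → ℝ) (p : Fin 3 → R3) : ℝ := ∑ i, ‖p i‖ ^ 2 / (2 * m i)

/-- The Newtonian potential `U(q) = ∑_{i<j} m_i m_j / |q_i - q_j|` (the energy is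
kinetic energy minus `U`). -/
noncomputable def potential (m : Fin 3 → ℝ) (q : Fin 3 → R3) : ℝ :=
  ∑ i, ∑ j, m i * m j / ‖q i - q j‖ / 2

/-- The energy surface `H = E` of the reduced three-body problem (centre of mass `0`, total
momentum `0`, no collisions). -/
def surface (m : Fin 3 → ℝ) (E : ℝ) : Set Phase :=
  {x | (∀ i j, i ≠ j → x.1 i ≠ x.1 j) ∧ ∑ i, m i • x.1 i = 0 ∧ ∑ i, x.2 i = 0 ∧
    kinetic m x.2 - potential m x.1 = E}

/-- `φ` is the complete flow on the energy surface obtained from the three-body flow by a smooth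
positive change of time `ψ`. -/
structure IsReparametrizedFlow (m : Fin 3 → ℝ) (E : ℝ) (ψ : Phase → ℝ)
    (φ : ℝ → Phase → Phase) : Prop where
  /-- `ψ` is smooth outside collisions -/
  smooth : ContDiffOn ℝ ((⊤ : ℕ∞) : WithTop ℕ∞) ψ {x | ∀ i j, i ≠ j → x.1 i ≠ x.1 j}
  /-- `ψ` is positive outside collisions -/
  pos : ∀ x : Phase, (∀ i j, i ≠ j → x.1 i ≠ x.1 j) → 0 < ψ x
  /-- orbits exist for all times and solve the reparametrized equations of motion -/
  flow : ∀ x ∈ surface m E, φ 0 x = x ∧ ∀ t : ℝ, φ t x ∈ surface m E ∧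
    HasDerivAt (fun s : ℝ => φ s x)
      (ψ (φ t x) • ((fun i => (m i)⁻¹ • (φ t x).2 i),
        (fun i => ∑ j, (m i * m j / ‖(φ t x).1 j - (φ t x).1 i‖ ^ 3) •
          ((φ t x).1 j - (φ t x).1 i)))) t

/-- `x` is a nonwandering point of the flow `φ` on the energy surface `S`. -/
def IsNonwandering (S : Set Phase) (φ : ℝ → Phase → Phase) (x : Phase) : Prop :=
  ∀ V : Set Phase, IsOpen V → x ∈ V → ∀ T : ℝ, ∃ t : ℝ, T < t ∧ ∃ y ∈ V ∩ S, φ t y ∈ V

/-- Position of the centre of mass of the bodies `a`, `b`, relative to the body `c`. -/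
noncomputable def outerPosition (m : Fin 3 → ℝ) (a b c : Fin 3) (q : Fin 3 → R3) : R3 :=
  (m a + m b)⁻¹ • (m a • q a + m b • q b) - q c

/-- Velocity of the centre of mass of the bodies `a`, `b`, relative to the body `c`. -/
noncomputable def outerVelocity (m : Fin 3 → ℝ) (a b c : Fin 3) (p : Fin 3 → R3) : R3 :=
  (m a + m b)⁻¹ • (p a + p b) - (m c)⁻¹ • p c

/-- The square `|X × V|²` of the length of the vector product. -/
noncomputable def crossSq (X V : R3) : ℝ := ‖X‖ ^ 2 * ‖V‖ ^ 2 - (inner ℝ X V) ^ 2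

theorem result (m : Fin 3 → ℝ) (hm : ∀ i, 0 < m i) :
    ∃ C : ℝ, 0 < C ∧ ∀ (E : ℝ) (ψ : Phase → ℝ) (φ : ℝ → Phase → Phase),
      IsReparametrizedFlow m E ψ φ →
      ∀ a b c : Fin 3, a ≠ b → a ≠ c → b ≠ c → ∀ x ∈ surface m E,
        4 * ‖x.1 a - x.1 b‖ < ‖outerPosition m a b c x.1‖ →
        C < crossSq (outerPosition m a b c x.1) (outerVelocity m a b c x.2) *
          ‖outerVelocity m a b c x.2‖ ^ 2 →
        ¬ IsNonwandering (surface m E) φ x := by
  obtain ⟨C, hC, h1⟩ := Pool.Agent.N677.NW.region m hm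
  refine ⟨C, hC, ?_⟩
  intro E ψ φ hφ a b c hab hac hbc x hx hX hK
  have hfl : Pool.Agent.Y516.NW.IsFl m E ψ φ := ⟨hφ.smooth.continuousOn, hφ.pos, hφ.flow⟩
  rcases le_or_gt E 0 with hE | hE
  · have e1 : Pool.Agent.N677.NW.rel m a b c x.1 = outerPosition m a b c x.1 := by
      unfold Pool.Agent.N677.NW.rel Pool.Agent.Y516.NW.cm outerPosition
      simp [hac.symm, hbc.symm]
    have e2 : Pool.Agent.N677.NW.rel m a b c (Pool.Agent.Y516.NW.vel m x) =
        outerVelocity m a b c x.2 := by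
      unfold Pool.Agent.N677.NW.rel Pool.Agent.Y516.NW.cm outerVelocity Pool.Agent.Y516.NW.vel
      have ha := (hm a).ne'
      have hb := (hm b).ne'
      simp [hac.symm, hbc.symm, smul_smul, ha, hb]
    refine h1 E hE ψ φ hfl a b c hab hac hbc x hx (by rw [e1]; exact hX) ?_
    rw [e1, e2]
    exact hK
  · exact Pool.Agent.Y438.NW.pos 3 m hm E hE ψ φ hfl x hx

end Pool.Agent.N677.NW.WanderingRegion
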